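import Pool.Agent.U854.CL.Line
import Pool.Agent.U854.CL.Tor
import Pool.Agent.U854.SA.Res
import Pool.Agent.W282.SI.Good

/-!
# MP_a325a5_ag: Zilber-Pink for subvarieties of `Y(1)^n × G_m^k` near to one special point

`Y(1)^n` is identified with `ℂ^n` by the elliptic modular function `jj = j = E₄³ / Δ`. The points of
`Y(1)^n × G_m^k` are the `x ∈ ℂ^(n+k)` whose last `k` coordinates are not `0`. The special subvarieties
are the products `Z × T`: the constant coordinates of `Z` are CM points, its coordinates of class `l`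
are `j (g_i z_l)` with `z_1, …, z_r` free in the upper half plane and integral matrices `g_i` of
positive determinant; `T = {u : u^a = η^a for all a ∈ M}` with roots of unity `η_j` is a torsion coset.

**The setting.** Let `K` be a number field, `σ : K → ℂ`, `v` a prime of `K` above the prime number `p`,
and let `B ⊆ (P¹)^s` be a variety of any dimension given by multihomogeneous forms `H_t` over `𝓞 K`; let
`N_i`, `M_i` (`i ≤ n + k`) be forms over `𝓞 K` of the same multidegrees and `y_i = N_i / M_i`. The set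
`X ⊆ Y(1)^n × G_m^k` consists of the points `(c_i + μ_i y_i(z); ω_j (1 + ν_j y_(n+j)(z)))` with `z ∈ B(ℂ)`,
where

* `c_i = j(τ_i)` is a CM point, ordinary at `p ≠ 2` and not congruent to `0` or `1728`, and
  `|μ_i|^(p-1) < |p|`;
* `ω_j` is a root of unity and `|ν_j|^(p-1) < |p|`.

*All the centres `(c_i; ω_j)` may be one special point `(a, …, a; 1, …, 1)` and all the scales may be
equal.* In general we suppose for two coordinates of the same kind that the quotient of the scales is a
power of `p` (and `c_i = c_j`), or that the quotient of their absolute values is no power of `|p|` (or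
that the CM points are not isogenous).

**The criterion** (`LinearPosition`). At a point of the reduction modulo `v` of the closure of the graph
of `(y_i)_i`, let `S` be a set of modular coordinates such that the `y_i` (`i ∈ S`) are different from
`0` and `∞` and pairwise not proportional over `𝔽_p`, and let `J` be a set of torus coordinates such that
the `y_(n+j)` (`j ∈ J`) are different from `∞` and linearly independent over `𝔽_p` (both only for
coordinates with the same centre `c_i` and comparable scales). The reduction is in linear position if at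
each of its points over extension fields of `𝓞 K / v` there are such sets, for which the number of
algebraically independent `y_i` is at most `m + |S| + |J| - (n + k)`. So the reduction has no
intersection of excessive dimension with the *finitely many* linear subspaces over `𝔽_p` given by
equations `y_i = 0`, `y_j = f y_i` (modular coordinates) and linear equations between the torus
coordinates, and it has the expected intersection with the divisors at infinity.

**Theorem** (`result`).
1. If the reduction is in linear position at *one* place then `X` has no atypical intersection: for all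
   special `Z` of dimension `r` and all torsion cosets `T` of codimension `rank M`, every irreducible
   relatively closed subset of `X ∩ (Z × T)` has dimension at most
   `dim (Z × T) + m - (n + k) = r - rank M + m - n`, and the points of `X ∩ (Z × T)` have at most this
   transcendence degree.
2. In particular this holds with `m = 1` for rational curves given by binary forms `N_i`, `M_i` of the
   same degree, if at every point of the projective line over an extension of `𝓞 K / v` all the
   coordinates with at most one exception can be taken for `S` and `J`, and without exception if the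
   point is transcendental over `𝓞 K / v`.

In our results `OnePlace` (here and for `MP_defd1c_ag`) the CM points of different modular coordinates
are not isogenous, and the distances of the torus coordinates from the torsion points are pairwise
incongruent modulo `|p|^ℤ`, so that only absolute values are compared. Here all the distances may be
equal: the terms of first order are compared.

Proof: for the modular coordinates, the local law of `MP_d83ecd_ag.FirstOrder`: if `x`, `x'` are
isogenous and near to `a` then `(x' - a) / (x - a)` is a product of a rational number and an element of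
`1 + 𝔪`. For the torus coordinates, `w^b - 1 = b (w - 1) (1 + 𝔪)` if `|w - 1|^(p-1) < |p|`; so numbers
`1 + ν y_j` with residues of the `y_j` linearly independent over `𝔽_p` are multiplicatively independent
(`Pool.Agent.U854.CL.torus_free`).
-/

set_option autoImplicit false

namespace Pool.Agent.Results.MP_a325a5_ag.LinearReduction

open UpperHalfPlane H294ZP NumberField IsDedekindDomain

/-- A special subvariety of dimension `r` of `Y(1)^n`: a map `cls` from the coordinates onto `r`
classes (`none` for the constant coordinates), an integral matrix of positive determinant for each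
coordinate, and a CM point for each coordinate. -/
structure SpecialVariety (n r : ℕ) where
  cls : Fin n → Option (Fin r)
  surj : ∀ l : Fin r, ∃ i, cls i = some l
  mat : Fin n → Matrix (Fin 2) (Fin 2) ℤ
  det_pos : ∀ i, 0 < (mat i).det
  cm : Fin n → ℍ
  isCM : ∀ i, IsCM (cm i)

/-- The points of a special subvariety: the constant coordinates are the singular moduli
`j (cm i)`, the other coordinates are `j (g_i z_l)`, where `l` is the class of `i`, `g_i = mat i` and
`z_1, …, z_r` are free parameters in the upper half plane. -/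
def SpecialVariety.locus {n r : ℕ} (Z : SpecialVariety n r) : Set (Fin n → ℂ) :=
  {x | ∃ z : Fin r → ℍ, ∀ i, (Z.cls i = none → x i = jj (Z.cm i)) ∧
    ∀ l, Z.cls i = some l → ∃ w : ℍ,
      (w : ℂ) * (Z.mat i 1 0 * z l + Z.mat i 1 1) = Z.mat i 0 0 * z l + Z.mat i 0 1 ∧ x i = jj w}

/-- The torsion coset `{u | u ^ a = η ^ a for all a in M}` of an algebraic subgroup of `(ℂ^×)^k`, of
dimension `k - rank M`; here the `η_j` are roots of unity. -/
def coset {k : ℕ} (M : Submodule ℤ (Fin k → ℤ)) (η : Fin k → ℂ) : Set (Fin k → ℂ) :=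
  {u | (∀ j, u j ≠ 0) ∧ ∀ a ∈ M, ∏ j, u j ^ a j = ∏ j, η j ^ a j}

/-- The product `Z × T` of a special subvariety `Z` of `Y(1)^n` and the coset `T`. -/
def product {n k r : ℕ} (Z : SpecialVariety n r) (M : Submodule ℤ (Fin k → ℤ)) (η : Fin k → ℂ) :
    Set (Fin (n + k) → ℂ) :=
  {x | (fun i : Fin n => x (Fin.castAdd k i)) ∈ Z.locus ∧
    (fun j : Fin k => x (Fin.natAdd n j)) ∈ coset M η}

/-- The CM point `τ` is ordinary at `p`: `τ` is fixed by an integral matrix `M` whose determinant is
a power of `p` and whose trace is prime to `p` (`p` splits in the field `ℚ(τ)` and does not divide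
the conductor). -/
def OrdinaryAt (p : ℕ) (τ : ℍ) : Prop :=
  ∃ (e : ℕ) (M : Matrix (Fin 2) (Fin 2) ℤ), 0 < e ∧ M.det = (p : ℤ) ^ e ∧ ¬ (p : ℤ) ∣ M.trace ∧
    (τ : ℂ) * (M 1 0 * τ + M 1 1) = M 0 0 * τ + M 0 1

/-- `x` and `x'` are the `j`-invariants of isogenous elliptic curves. -/
def Isogenous (x x' : ℂ) : Prop :=
  ∃ (g : Matrix (Fin 2) (Fin 2) ℤ) (τ τ' : ℍ), 0 < g.det ∧
    (τ' : ℂ) * (g 1 0 * τ + g 1 1) = g 0 0 * τ + g 0 1 ∧ jj τ = x ∧ jj τ' = x'

/-- A form with coefficients in `R` which is homogeneous of degree `deg i` in `(ξ i, ζ i)` for each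
`i`: the coefficients of the monomials `∏ ξ_i ^ (e_i) ζ_i ^ (deg i - e_i)`. -/
structure MultiForm (R : Type) (s : ℕ) where
  deg : Fin s → ℕ
  coeff : ((i : Fin s) → Fin (deg i + 1)) → R

/-- The value of the form at a point over `k`, for a ring homomorphism `R → k`. -/
def MultiForm.eval {R k : Type} [CommRing R] [CommRing k] {s : ℕ} (F : MultiForm R s) (π : R →+* k)
    (ξ ζ : Fin s → k) : k :=
  ∑ e, π (F.coeff e) * ∏ i, ξ i ^ (e i : ℕ) * ζ i ^ (F.deg i - e i)

/-- reduction modulo an ideal, followed by the inclusion into an extension -/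
def reduction {R : Type} [CommRing R] (v : Ideal R) (k : Type) [Field k] [Algebra (R ⧸ v) k] :
    R →+* k :=
  (algebraMap (R ⧸ v) k).comp (Ideal.Quotient.mk v)

/-- The coordinate `c + μ y` is near to a CM point: `c = j(τ)` is a CM point, ordinary at the odd prime
number `p` under `v` and not congruent to `0` or `1728`, and `μ ≠ 0`, `|μ|^(p-1) < |p|`. -/
structure NearCM {K : Type} [Field K] [NumberField K] (σ : K →+* ℂ)
    (v : HeightOneSpectrum (𝓞 K)) (p : ℕ) (τ : ℍ) (c μ : K) : Prop where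
  odd : p ≠ 2
  j_eq : jj τ = σ c
  cm : IsCM τ
  ordinary : OrdinaryAt p τ
  not_zero : v.valuation K c = 1
  not_1728 : v.valuation K (c - 1728) = 1
  scale_ne : μ ≠ 0
  scale_lt : v.valuation K μ ^ (p - 1) < v.valuation K p

/-- The quotient of the scales is a power of `p`. -/
def Comparable {K : Type} [Field K] (p : ℕ) (μ μ' : K) : Prop :=
  ∃ s t : ℕ, μ * (p : K) ^ s = μ' * (p : K) ^ t

/-- The quotient of the absolute values of the scales is not a power of `|p|`. -/
def Incomparable {K : Type} [Field K] [NumberField K] (v : HeightOneSpectrum (𝓞 K)) (p : ℕ)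
    (μ μ' : K) : Prop :=
  ∀ s t : ℕ, v.valuation K (μ * (p : K) ^ s) ≠ v.valuation K (μ' * (p : K) ^ t)

/-- The torus coordinate `ω (1 + ν y)` is near to a torsion point: `ω` is a root of unity and `ν ≠ 0`,
`|ν|^(p-1) < |p|`. -/
structure NearTorsion {K : Type} [Field K] [NumberField K] (v : HeightOneSpectrum (𝓞 K)) (p : ℕ)
    (ω ν : K) : Prop where
  root : ∃ N : ℕ, 0 < N ∧ ω ^ N = 1
  scale_ne : ν ≠ 0
  scale_lt : v.valuation K ν ^ (p - 1) < v.valuation K p

/-- A place `v` of a number field `K` embedded into `ℂ`; for each modular coordinate a CM point `c_i` and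
a scale `μ_i` in `K`, such that for two of them the CM points are not isogenous, or the scales are
incomparable, or the CM points are equal and the scales comparable; for each torus coordinate a root of
unity `ω_j` and a scale `ν_j` in `K`, such that two of these scales are incomparable or comparable. -/
structure LocalData (n k : ℕ) where
  K : Type
  [field : Field K]
  [numberField : NumberField K]
  σ : K →+* ℂ
  v : HeightOneSpectrum (𝓞 K)
  p : ℕ
  prime : p.Prime
  mem : (p : 𝓞 K) ∈ v.asIdeal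
  c : Fin n → K
  μ : Fin n → K
  τ : Fin n → ℍ
  near : ∀ i, NearCM σ v p (τ i) (c i) (μ i)
  compatible : ∀ i j, i ≠ j → ¬ Isogenous (jj (τ i)) (jj (τ j)) ∨
    Incomparable v p (μ i) (μ j) ∨ (c i = c j ∧ Comparable p (μ i) (μ j))
  ω : Fin k → K
  ν : Fin k → K
  torsion : ∀ j, NearTorsion v p (ω j) (ν j)
  scales : ∀ i j, i ≠ j → Incomparable v p (ν i) (ν j) ∨ Comparable p (ν i) (ν j)

attribute [instance] LocalData.field LocalData.numberField

/-- The modular coordinates `i` and `j` are linked at the point `(η_i : θ_i)_i` of the reduction: the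
centres are equal, the scales comparable, and `y_j = f y_i` with an integer `f`, `y_i = η_i / θ_i`. -/
def LocalData.Linked {n k : ℕ} (D : LocalData n k) {κ : Type} [Field κ] (η θ : Fin (n + k) → κ)
    (i j : Fin n) : Prop :=
  D.c i = D.c j ∧ Comparable D.p (D.μ i) (D.μ j) ∧
    ∃ f : ℤ, η (Fin.castAdd k j) / θ (Fin.castAdd k j) =
      f * (η (Fin.castAdd k i) / θ (Fin.castAdd k i))

/-- The modular coordinates in the set `S` are different from `0` and `∞` and pairwise not linked; the
torus coordinates in `J` are different from `∞`, and those of them whose scales are comparable with a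
given one are linearly independent over `𝔽_p`. -/
def LocalData.Free {n k : ℕ} (D : LocalData n k) {κ : Type} [Field κ] (η θ : Fin (n + k) → κ)
    (S : Finset (Fin n)) (J : Finset (Fin k)) : Prop :=
  (∀ i ∈ S, η (Fin.castAdd k i) ≠ 0 ∧ θ (Fin.castAdd k i) ≠ 0) ∧
  (∀ i ∈ S, ∀ j ∈ S, i ≠ j → ¬ D.Linked η θ i j) ∧
  (∀ j ∈ J, θ (Fin.natAdd n j) ≠ 0) ∧
  ∀ j₀ ∈ J, ∀ b : Fin k → ℤ, (∀ j, b j ≠ 0 → j ∈ J ∧ Comparable D.p (D.ν j) (D.ν j₀)) →
    ∑ j, (b j : κ) * (η (Fin.natAdd n j) / θ (Fin.natAdd n j)) = 0 → ∀ j, (D.p : ℤ) ∣ b j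

/-- The equations of a variety `B ⊆ (P¹)^s` (forms `H_t`), and forms `N_i`, `M_i` of the same
multidegrees. -/
structure Family {n k : ℕ} (D : LocalData n k) where
  s : ℕ
  T : Type
  H : T → MultiForm (𝓞 D.K) s
  N : Fin (n + k) → MultiForm (𝓞 D.K) s
  M : Fin (n + k) → MultiForm (𝓞 D.K) s
  deg_eq : ∀ i, (N i).deg = (M i).deg

/-- The point `((ξ_j : ζ_j)_j, (η_i : θ_i)_i)` over `κ` is on the variety `B` and satisfies
`η_i M_i = θ_i N_i`. -/
def Family.OnGraph {n k : ℕ} {D : LocalData n k} (F : Family D) {κ : Type} [Field κ]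
    (π : 𝓞 D.K →+* κ) (ξ ζ : Fin F.s → κ) (η θ : Fin (n + k) → κ) : Prop :=
  (∀ j, ξ j ≠ 0 ∨ ζ j ≠ 0) ∧ (∀ i, η i ≠ 0 ∨ θ i ≠ 0) ∧ (∀ t, (F.H t).eval π ξ ζ = 0) ∧
    ∀ i, η i * (F.M i).eval π ξ ζ = θ i * (F.N i).eval π ξ ζ

/-- The reduction is in linear position: at each of its points over an extension `κ` of `𝓞 K / v`, for
each set `W` of algebraically independent coordinates `y_i = η_i / θ_i` there are sets `S`, `J` which
are free, with `n + k + |W| ≤ m + |S| + |J|`. -/
def Family.LinearPosition {n k : ℕ} {D : LocalData n k} (F : Family D) (m : ℕ) : Prop :=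
  ∀ (κ : Type) [Field κ] [Algebra (𝓞 D.K ⧸ D.v.asIdeal) κ] (ξ ζ : Fin F.s → κ)
    (η θ : Fin (n + k) → κ), F.OnGraph (reduction D.v.asIdeal κ) ξ ζ η θ →
    ∀ W : Finset (Fin (n + k)),
      AlgebraicIndependent (𝓞 D.K ⧸ D.v.asIdeal) (fun i : W => η i / θ i) →
      ∃ (S : Finset (Fin n)) (J : Finset (Fin k)), D.Free η θ S J ∧
        n + k + W.card ≤ m + S.card + J.card

/-- the value `N_i(z) / M_i(z)` at a complex point -/
noncomputable def Family.value {n k : ℕ} {D : LocalData n k} (F : Family D) (ξ ζ : Fin F.s → ℂ)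
    (i : Fin (n + k)) : ℂ :=
  (F.N i).eval (D.σ.comp (algebraMap (𝓞 D.K) D.K)) ξ ζ /
    (F.M i).eval (D.σ.comp (algebraMap (𝓞 D.K) D.K)) ξ ζ

/-- All the points `(c_i + μ_i y_i; ω_j (1 + ν_j y_(n+j)))`, `y_i = N_i(z) / M_i(z)`, with `z ∈ B(ℂ)`,
`M_i(z) ≠ 0`. -/
def Family.image {n k : ℕ} {D : LocalData n k} (F : Family D) : Set (Fin (n + k) → ℂ) :=
  {x | ∃ ξ ζ : Fin F.s → ℂ, (∀ j, ξ j ≠ 0 ∨ ζ j ≠ 0) ∧
    (∀ t, (F.H t).eval (D.σ.comp (algebraMap (𝓞 D.K) D.K)) ξ ζ = 0) ∧
    (∀ i, (F.M i).eval (D.σ.comp (algebraMap (𝓞 D.K) D.K)) ξ ζ ≠ 0) ∧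
    (∀ i : Fin n, x (Fin.castAdd k i) =
      D.σ (D.c i) + D.σ (D.μ i) * F.value ξ ζ (Fin.castAdd k i)) ∧
    ∀ j : Fin k, x (Fin.natAdd n j) =
      D.σ (D.ω j) * (1 + D.σ (D.ν j) * F.value ξ ζ (Fin.natAdd n j))}

/-- `X` has no atypical intersection: for each special subvariety `Z` of `Y(1)^n` of dimension `r` and
each torsion coset `T`, the points of `X ∩ (Z × T)` have transcendence degree at most
`m + r - n - rank M`, and each irreducible subset of `X ∩ (Z × T)`, closed in `ℂ^n × (ℂ^×)^k`, has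
dimension at most `m + r - n - rank M`. -/
def NoAtypical {n k : ℕ} (X : Set (Fin (n + k) → ℂ)) (m : ℕ) : Prop :=
  ∀ (r : ℕ) (Z : SpecialVariety n r) (M : Submodule ℤ (Fin k → ℤ)) (η : Fin k → ℂ),
    (∀ j, ∃ N : ℕ, 0 < N ∧ η j ^ N = 1) →
    (∀ x ∈ X ∩ product Z M η, ∀ W : Finset (Fin (n + k)),
      AlgebraicIndependent ℚ (fun i : W => x i) → n + Module.finrank ℤ M + W.card ≤ m + r) ∧
    ∀ A ⊆ X ∩ product Z M η,
      (∀ x ∈ Pool.Agent.W282.ZP.zcl A, (∀ j : Fin k, x (Fin.natAdd n j) ≠ 0) → x ∈ A) →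
      (Pool.Agent.W282.ZP.idealOf A).IsPrime →
      (n : Cardinal) + (Module.finrank ℤ M : Cardinal) + Pool.Agent.W282.ZP.zdim A ≤
        (m : Cardinal) + (r : Cardinal)

/-- The rational curve is in linear position: at each point `(ξ : ζ)` of the projective line over an
extension `κ` of `𝓞 K / v` there are free sets `S`, `J` for the coordinates `N_i / M_i`, which contain
all the coordinates with at most one exception, and without exception if `ξ / ζ` is transcendental. -/
def LinePosition {n k : ℕ} (D : LocalData n k) (N M : Fin (n + k) → MultiForm (𝓞 D.K) 1) : Prop :=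
  ∀ (κ : Type) [Field κ] [Algebra (𝓞 D.K ⧸ D.v.asIdeal) κ] (ξ ζ : Fin 1 → κ),
    (ξ 0 ≠ 0 ∨ ζ 0 ≠ 0) →
    ∃ (S : Finset (Fin n)) (J : Finset (Fin k)), n + k ≤ 1 + S.card + J.card ∧
      (Transcendental (𝓞 D.K ⧸ D.v.asIdeal) (ξ 0 / ζ 0) → S = Finset.univ ∧ J = Finset.univ) ∧
      D.Free (fun i => (N i).eval (reduction D.v.asIdeal κ) ξ ζ)
        (fun i => (M i).eval (reduction D.v.asIdeal κ) ξ ζ) S J ∧
      ∀ i, (N i).eval (reduction D.v.asIdeal κ) ξ ζ ≠ 0 ∨
        (M i).eval (reduction D.v.asIdeal κ) ξ ζ ≠ 0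

/-- The rational curve with the coordinates `y_i = N_i(t) / M_i(t)`, `t` a point of the projective
line. -/
def rational {n k : ℕ} (D : LocalData n k) (N M : Fin (n + k) → MultiForm (𝓞 D.K) 1)
    (h : ∀ i, (N i).deg = (M i).deg) : Family D where
  s := 1
  T := Empty
  H := fun t => t.elim
  N := N
  M := M
  deg_eq := h

/-- the form as in the helper files -/
def toForm {R : Type} {s : ℕ} (F : MultiForm R s) :
    Pool.Agent.U854.SA.Form R (Fin s) := ⟨F.deg, F.coeff⟩

theorem eval_scale {R k : Type} [CommRing R] [CommRing k] {s : ℕ}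
    (F : MultiForm R s) (π : R →+* k) (l a b : Fin s → k) :
    F.eval π (fun i => l i * a i) (fun i => l i * b i) = F.eval π a b * ∏ i, l i ^ F.deg i :=
  Pool.Agent.U854.SA.Form.eval_scale (toForm F) π l a b

theorem map_eval {R k k' : Type} [CommRing R] [CommRing k] [CommRing k'] {s : ℕ}
    (F : MultiForm R s) (π : R →+* k) (f : k →+* k') (ξ ζ : Fin s → k) :
    f (F.eval π ξ ζ) = F.eval (f.comp π) (fun i => f (ξ i)) (fun i => f (ζ i)) :=
  Pool.Agent.U854.SA.Form.map_eval (toForm F) π f ξ ζ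

/-- relations supported outside a small set -/
theorem exists_relation {k : ℕ} (M : Submodule ℤ (Fin k → ℤ)) (B : Finset (Fin k))
    (h : B.card < Module.finrank ℤ M) : ∃ a ∈ M, a ≠ 0 ∧ ∀ j ∈ B, a j = 0 := by
  classical
  by_contra hcon
  push Not at hcon
  let f : M →ₗ[ℤ] (B → ℤ) :=
    (LinearMap.funLeft ℤ ℤ (fun j : B => (j : Fin k))).comp M.subtype
  have hf : Function.Injective f := by
    rw [injective_iff_map_eq_zero]
    intro a ha
    by_contra hne
    obtain ⟨j, hj, hj'⟩ := hcon a a.2 (fun h => hne (Subtype.ext h))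
    exact hj' (congrFun ha ⟨j, hj⟩)
  have h1 := LinearMap.finrank_le_finrank_of_injective hf
  rw [Module.finrank_pi, Fintype.card_coe] at h1
  omega

theorem incomparable_val {K : Type} [Field K] [NumberField K] {σ : K →+* ℂ}
    {v : HeightOneSpectrum (𝓞 K)} {p : ℕ} (hp : p.Prime) {V : ValuationSubring ℂ}
    (hA1 : ∀ a : 𝓞 K, V.valuation (σ a) ≤ 1)
    (hA2 : ∀ a : 𝓞 K, V.valuation (σ a) < 1 ↔ a ∈ v.asIdeal) {μ μ' : K} (hμ : μ ≠ 0)
    (hμ' : μ' ≠ 0) (h : Incomparable v p μ μ') (s t : ℕ) :
    V.valuation (σ μ * (p : ℂ) ^ s) ≠ V.valuation (σ μ' * (p : ℂ) ^ t) := by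
  have hpK : (p : K) ≠ 0 := by exact_mod_cast hp.ne_zero
  have h1 := Pool.Agent.N135.ZO.val_ne hA1 hA2 (x := μ * (p : K) ^ s)
    (y := μ' * (p : K) ^ t) (mul_ne_zero hμ (pow_ne_zero _ hpK))
    (mul_ne_zero hμ' (pow_ne_zero _ hpK)) (h s t)
  rw [map_mul σ, map_mul σ, map_pow σ, map_pow σ, map_natCast σ] at h1
  exact h1

theorem comparable_map {K : Type} [Field K] {σ : K →+* ℂ} {p : ℕ} {μ μ' : K} :
    (∃ s t : ℕ, σ μ * (p : ℂ) ^ s = σ μ' * (p : ℂ) ^ t) ↔ Comparable p μ μ' := by
  constructor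
  · rintro ⟨s, t, h⟩
    refine ⟨s, t, σ.injective ?_⟩
    rw [map_mul, map_mul, map_pow, map_pow, map_natCast]
    exact h
  · rintro ⟨s, t, h⟩
    refine ⟨s, t, ?_⟩
    have := congrArg σ h
    rwa [map_mul, map_mul, map_pow, map_pow, map_natCast] at this

theorem main_pt {n k m : ℕ} {D : LocalData n k} (F : Family D) (hF : F.LinearPosition m)
    {r : ℕ} (Z : SpecialVariety n r) (R : Submodule ℤ (Fin k → ℤ)) {ρ : Fin k → ℂ}
    (hρ : ∀ j, ∃ N : ℕ, 0 < N ∧ ρ j ^ N = 1) {x : Fin (n + k) → ℂ} (hxX : x ∈ F.image)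
    (hxZ : x ∈ product Z R ρ) (W : Finset (Fin (n + k)))
    (hW : AlgebraicIndependent ℚ (fun i : W => x i)) :
    n + Module.finrank ℤ R + W.card ≤ m + r := by
  classical
  obtain ⟨hxZ1, hxZ2⟩ := hxZ
  obtain ⟨ξ, ζ, hξζ, hH, hM, hxm, hxt⟩ := hxX
  set ι := D.σ.comp (algebraMap (𝓞 D.K) D.K) with hι
  have hμ : ∀ i, D.μ i ≠ 0 := fun i => (D.near i).scale_ne
  have hν : ∀ j, D.ν j ≠ 0 := fun j => (D.torsion j).scale_ne
  have hω : ∀ j, D.ω j ≠ 0 := by
    intro j h
    obtain ⟨N, hN, hN1⟩ := (D.torsion j).root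
    rw [h, zero_pow hN.ne'] at hN1
    exact zero_ne_one hN1
  let y : Fin (n + k) → ℂ := F.value ξ ζ
  -- the coordinates `y`
  have haff : ∀ i : Fin (n + k), ∃ A B : D.K, B ≠ 0 ∧ x i = D.σ A + D.σ B * y i := by
    intro i
    refine Fin.addCases (fun i => ?_) (fun j => ?_) i
    · exact ⟨D.c i, D.μ i, hμ i, hxm i⟩
    · refine ⟨D.ω j, D.ω j * D.ν j, mul_ne_zero (hω j) (hν j), ?_⟩
      rw [hxt j, map_mul]
      ring
  choose cA cB hcB hcx using haff
  have hWy : AlgebraicIndependent ℚ (fun i : W => y i) := by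
    let _ : Algebra D.K ℂ := D.σ.toAlgebra
    have hKx : AlgebraicIndependent D.K (fun i : W => x i) := hW.extendScalars D.K
    have hKy : AlgebraicIndependent D.K (fun i : W => y i) :=
      Pool.Agent.N135.ZO.indep_affine (fun i : W => cA i) (fun i : W => cB i) (fun i => hcB i)
        (fun i => by rw [hcx i]; rfl) hKx
    exact hKy.restrictScalars (algebraMap ℚ D.K).injective
  let a : Fin F.s ⊕ Fin (n + k) → ℂ := Sum.elim ξ (fun i => (F.N i).eval ι ξ ζ)
  let b : Fin F.s ⊕ Fin (n + k) → ℂ := Sum.elim ζ (fun i => (F.M i).eval ι ξ ζ)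
  have hab : ∀ i, a i ≠ 0 ∨ b i ≠ 0 := by
    rintro (j | i)
    · exact hξζ j
    · exact Or.inr (hM i)
  let W₁ : Finset (Fin F.s ⊕ Fin (n + k)) := W.map ⟨Sum.inr, Sum.inr_injective⟩
  have hW₁ : AlgebraicIndependent ℚ (fun i : W₁ => a i / b i) := by
    have hex : ∀ i : W₁, ∃ j : W, (Sum.inr (j : Fin (n + k)) : Fin F.s ⊕ Fin (n + k)) = i := by
      rintro ⟨i, hi⟩
      obtain ⟨j, hj, hij⟩ := Finset.mem_map.1 hi
      exact ⟨⟨j, hj⟩, hij⟩
    choose f hf using hex
    have hfi : Function.Injective f := by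
      intro i i' h
      apply Subtype.ext
      rw [← hf i, ← hf i', h]
    have h1 := hWy.comp f hfi
    have e : (fun i : W₁ => a i / b i) = (fun i : W => y i) ∘ f := by
      funext i
      rw [← hf i]
      rfl
    rw [e]
    exact h1
  obtain ⟨V, hA1, hA2, -, π, k', hk, hkA, res, l, ξ', ζ', hπ, hresπ, hres, hl, hξ', hζ', hne,
    hind⟩ := Pool.Agent.U854.SA.place_res D.σ D.v D.prime D.mem hab W₁ hW₁
  have hpV : V.valuation (D.p : ℂ) < 1 := by
    have := (hA2 (D.p : 𝓞 D.K)).2 D.mem
    simpa using this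
  have hpK : (D.p : D.K) ≠ 0 := by exact_mod_cast D.prime.ne_zero
  have hpC : (D.p : ℂ) ≠ 0 := by exact_mod_cast D.prime.ne_zero
  -- the values of the forms at the normalized coordinates
  have hVal : ∀ (G : MultiForm (𝓞 D.K) F.s),
      ((G.eval π (fun j => ξ' (Sum.inl j)) (fun j => ζ' (Sum.inl j)) : V) : ℂ) =
        G.eval ι ξ ζ * ∏ j, l (Sum.inl j) ^ G.deg j := by
    intro G
    have h3 := map_eval G π V.subtype (fun j => ξ' (Sum.inl j)) (fun j => ζ' (Sum.inl j))
    have h5 : (fun j => V.subtype (ξ' (Sum.inl j))) = fun j => l (Sum.inl j) * ξ j :=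
      funext fun j => hξ' (Sum.inl j)
    have h6 : (fun j => V.subtype (ζ' (Sum.inl j))) = fun j => l (Sum.inl j) * ζ j :=
      funext fun j => hζ' (Sum.inl j)
    rw [hπ, h5, h6, eval_scale] at h3
    exact h3
  have hRes : ∀ (G : MultiForm (𝓞 D.K) F.s),
      res (G.eval π (fun j => ξ' (Sum.inl j)) (fun j => ζ' (Sum.inl j))) =
        G.eval (reduction D.v.asIdeal k') (fun j => res (ξ' (Sum.inl j)))
          (fun j => res (ζ' (Sum.inl j))) := by
    intro G
    rw [reduction, hresπ]
    exact map_eval G π res _ _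
  have hgraph : F.OnGraph (reduction D.v.asIdeal k') (fun j => res (ξ' (Sum.inl j)))
      (fun j => res (ζ' (Sum.inl j))) (fun i => res (ξ' (Sum.inr i)))
      (fun i => res (ζ' (Sum.inr i))) := by
    refine ⟨fun j => hne (Sum.inl j), fun i => hne (Sum.inr i), fun t => ?_, fun i => ?_⟩
    · rw [← hRes]
      have h2 : (F.H t).eval π (fun j => ξ' (Sum.inl j)) (fun j => ζ' (Sum.inl j)) = 0 := by
        apply Subtype.ext
        rw [hVal, hH t, zero_mul]
        rfl
      rw [h2, map_zero]
    · rw [← hRes, ← hRes, ← map_mul, ← map_mul]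
      congr 1
      apply Subtype.ext
      push_cast
      rw [hVal, hVal, F.deg_eq i]
      have e1 : (ξ' (Sum.inr i) : ℂ) = l (Sum.inr i) * (F.N i).eval ι ξ ζ := hξ' (Sum.inr i)
      have e2 : (ζ' (Sum.inr i) : ℂ) = l (Sum.inr i) * (F.M i).eval ι ξ ζ := hζ' (Sum.inr i)
      rw [e1, e2]
      ring
  have hind' : AlgebraicIndependent (𝓞 D.K ⧸ D.v.asIdeal)
      (fun i : W => res (ξ' (Sum.inr (i : Fin (n + k)))) /
        res (ζ' (Sum.inr (i : Fin (n + k))))) :=
    hind.comp (fun i : W => (⟨Sum.inr (i : Fin (n + k)), Finset.mem_map.2 ⟨i, i.2, rfl⟩⟩ : W₁))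
      (fun i i' h => Subtype.ext (Sum.inr_injective (congrArg Subtype.val h)))
  obtain ⟨S, J, ⟨hS1, hS2, hJ1, hJ2⟩, hcount⟩ := hF k' _ _ _ _ hgraph W hind'
  have hunit : ∀ z : V, res z ≠ 0 → V.valuation (z : ℂ) = 1 := by
    intro z hz
    refine le_antisymm ((V.valuation_le_one_iff _).2 z.2) (not_lt.1 fun h => ?_)
    exact hz ((hres z).2 h)
  have hyq : ∀ i, y i = (ξ' (Sum.inr i) : ℂ) / (ζ' (Sum.inr i) : ℂ) := by
    intro i
    have e1 : (ξ' (Sum.inr i) : ℂ) = l (Sum.inr i) * (F.N i).eval ι ξ ζ := hξ' (Sum.inr i)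
    have e2 : (ζ' (Sum.inr i) : ℂ) = l (Sum.inr i) * (F.M i).eval ι ξ ζ := hζ' (Sum.inr i)
    rw [e1, e2, mul_div_mul_left _ _ (hl _)]
    rfl
  -- the modular coordinates
  have hy1 : ∀ i ∈ S, V.valuation (y (Fin.castAdd k i)) = 1 := by
    intro i hi
    rw [hyq, map_div₀, hunit _ (hS1 i hi).1, hunit _ (hS1 i hi).2, div_one]
  have hdist : ∀ i ∈ S, V.valuation (x (Fin.castAdd k i) - jj (D.τ i)) =
      V.valuation (D.σ (D.μ i)) := by
    intro i hi
    have e : x (Fin.castAdd k i) = D.σ (D.c i) + D.σ (D.μ i) * y (Fin.castAdd k i) := hxm i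
    rw [(D.near i).j_eq, e, add_sub_cancel_left, map_mul, hy1 i hi, mul_one]
  let Z' : SpecialDatum n r := ⟨Z.cls, Z.surj, Z.mat, Z.det_pos, Z.cm, Z.isCM⟩
  have hxZ' : (fun i : Fin n => x (Fin.castAdd k i)) ∈ Z'.locus := hxZ1
  have hpair := Pool.Agent.U854.CL.class_pair D.prime hpV ∅ D.τ (fun i _ => (D.near i).odd)
    (fun i _ => (D.near i).cm) (fun i _ => (D.near i).ordinary)
    (fun i _ => by
      rw [(D.near i).j_eq]
      exact Pool.Agent.N135.ZO.val_one_of hA1 hA2 (D.near i).not_zero)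
    (fun i _ => by
      have e : D.σ (D.c i - 1728) = D.σ (D.c i) - 1728 := by
        rw [map_sub]
        congr 1
        exact map_ofNat D.σ 1728
      rw [(D.near i).j_eq, ← e]
      exact Pool.Agent.N135.ZO.val_one_of hA1 hA2 (D.near i).not_1728)
    Z' hxZ' S
    (fun i _ hiC => absurd hiC (Finset.notMem_empty i))
    (fun i hi _ => by
      refine ⟨fun h => ?_, ?_⟩
      · have h1 := hdist i hi
        rw [sub_eq_zero.2 h, map_zero] at h1
        exact (Valuation.ne_zero_iff _).2 ((map_ne_zero D.σ).2 (hμ i)) h1.symm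
      · show V.valuation (x (Fin.castAdd k i) - jj (D.τ i)) ^ (D.p - 1) < _
        rw [hdist i hi]
        have h3 := Pool.Agent.N135.ZO.val_pow_lt hA1 hA2 (x := D.μ i ^ (D.p - 1))
          (y := (D.p : D.K)) hpK (by
            rw [map_pow]
            exact (D.near i).scale_lt)
        rw [map_pow, map_pow, map_natCast] at h3
        exact h3)
  have hcard : S.card ≤ r := by
    refine Pool.Agent.U854.CL.card_le_classes Z.cls S (fun i hi => (hpair i hi).1) ?_
    intro i hi j hj hij hcls
    apply hS2 i hi j hj hij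
    rcases (hpair i hi).2 j hj hcls with h | ⟨-, -, hiso, ⟨s, t, hst⟩, hRL⟩
    · exact absurd h.1 (Finset.notMem_empty i)
    · rcases D.compatible i j hij with h | h | h
      · exact absurd hiso h
      · exfalso
        have hst' : V.valuation (x (Fin.castAdd k i) - jj (D.τ i)) *
            V.valuation (D.p : ℂ) ^ s = V.valuation (x (Fin.castAdd k j) - jj (D.τ j)) *
            V.valuation (D.p : ℂ) ^ t := hst
        rw [hdist i hi, hdist j hj] at hst'
        refine incomparable_val D.prime hA1 hA2 (hμ i) (hμ j) h s t ?_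
        rw [map_mul, map_mul, map_pow, map_pow]
        exact hst'
      · refine ⟨h.1, h.2, ?_⟩
        obtain ⟨hcc, s', t', hμμ⟩ := h
        have hjj : jj (D.τ i) = jj (D.τ j) := by
          rw [(D.near i).j_eq, (D.near j).j_eq, hcc]
        have hq : Pool.Agent.U854.CL.RL V ((x (Fin.castAdd k j) - jj (D.τ j)) /
            (x (Fin.castAdd k i) - jj (D.τ i))) := hRL hjj
        have hμiC : D.σ (D.μ i) ≠ 0 := (map_ne_zero D.σ).2 (hμ i)
        have hyi0 : y (Fin.castAdd k i) ≠ 0 := by
          rw [← V.valuation.ne_zero_iff, hy1 i hi]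
          exact one_ne_zero
        have hμμC : D.σ (D.μ i) * (D.p : ℂ) ^ s' = D.σ (D.μ j) * (D.p : ℂ) ^ t' := by
          have := congrArg D.σ hμμ
          rwa [map_mul, map_mul, map_pow, map_pow, map_natCast] at this
        have hxi : x (Fin.castAdd k i) = D.σ (D.c i) + D.σ (D.μ i) * y (Fin.castAdd k i) := hxm i
        have hxj : x (Fin.castAdd k j) = D.σ (D.c j) + D.σ (D.μ j) * y (Fin.castAdd k j) := hxm j
        have e1 : y (Fin.castAdd k j) / y (Fin.castAdd k i) =
            (x (Fin.castAdd k j) - jj (D.τ j)) / (x (Fin.castAdd k i) - jj (D.τ i)) *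
            ((((D.p : ℚ) ^ t' / (D.p : ℚ) ^ s' : ℚ)) : ℂ) := by
          rw [(D.near i).j_eq, (D.near j).j_eq, hxi, hxj, add_sub_cancel_left,
            add_sub_cancel_left]
          push_cast
          rw [div_mul_div_comm, div_eq_div_iff hyi0 (mul_ne_zero (mul_ne_zero hμiC hyi0)
            (pow_ne_zero _ hpC))]
          linear_combination y (Fin.castAdd k j) * y (Fin.castAdd k i) * hμμC
        have hpQ : (D.p : ℚ) ≠ 0 := by exact_mod_cast D.prime.ne_zero
        have hRL2 : Pool.Agent.U854.CL.RL V (y (Fin.castAdd k j) / y (Fin.castAdd k i)) := by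
          rw [e1]
          exact hq.mul (Pool.Agent.U854.CL.rl_rat (div_ne_zero (pow_ne_zero _ hpQ)
            (pow_ne_zero _ hpQ)))
        obtain ⟨f, hf⟩ := hRL2.int D.prime hpV (by rw [map_div₀, hy1 i hi, hy1 j hj, div_one])
        refine ⟨f, ?_⟩
        obtain ⟨hSi1, hSi2⟩ := hS1 i hi
        obtain ⟨hSj1, hSj2⟩ := hS1 j hj
        have hζi : ((ζ' (Sum.inr (Fin.castAdd k i)) : V) : ℂ) ≠ 0 := by
          rw [← V.valuation.ne_zero_iff, hunit _ hSi2]
          exact one_ne_zero
        have hζj : ((ζ' (Sum.inr (Fin.castAdd k j)) : V) : ℂ) ≠ 0 := by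
          rw [← V.valuation.ne_zero_iff, hunit _ hSj2]
          exact one_ne_zero
        have hξi : ((ξ' (Sum.inr (Fin.castAdd k i)) : V) : ℂ) ≠ 0 := by
          rw [← V.valuation.ne_zero_iff, hunit _ hSi1]
          exact one_ne_zero
        have e2 : ((ξ' (Sum.inr (Fin.castAdd k j)) * ζ' (Sum.inr (Fin.castAdd k i)) -
            f * ξ' (Sum.inr (Fin.castAdd k i)) * ζ' (Sum.inr (Fin.castAdd k j)) : V) : ℂ) =
            (y (Fin.castAdd k j) / y (Fin.castAdd k i) - f) *
            (((ξ' (Sum.inr (Fin.castAdd k i)) : V) : ℂ) *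
              ((ζ' (Sum.inr (Fin.castAdd k j)) : V) : ℂ)) := by
          rw [hyq (Fin.castAdd k i), hyq (Fin.castAdd k j)]
          push_cast
          field_simp
        have h0 : res (ξ' (Sum.inr (Fin.castAdd k j)) * ζ' (Sum.inr (Fin.castAdd k i)) -
            f * ξ' (Sum.inr (Fin.castAdd k i)) * ζ' (Sum.inr (Fin.castAdd k j))) = 0 := by
          rw [hres, e2, map_mul, map_mul, hunit _ hSi1, hunit _ hSj2, mul_one, mul_one]
          exact hf
        rw [map_sub, map_mul, map_mul, map_mul, map_intCast] at h0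
        show res (ξ' (Sum.inr (Fin.castAdd k j))) / res (ζ' (Sum.inr (Fin.castAdd k j))) =
          f * (res (ξ' (Sum.inr (Fin.castAdd k i))) / res (ζ' (Sum.inr (Fin.castAdd k i))))
        rw [← mul_div_assoc, div_eq_div_iff hSj2 hSi2]
        linear_combination h0
  -- the torus coordinates
  have hz : ∀ j : Fin k, ∃ z : V, j ∈ J → (z : ℂ) = y (Fin.natAdd n j) ∧
      res z = res (ξ' (Sum.inr (Fin.natAdd n j))) / res (ζ' (Sum.inr (Fin.natAdd n j))) := by
    intro j
    by_cases hj : j ∈ J
    · have hθ : res (ζ' (Sum.inr (Fin.natAdd n j))) ≠ 0 := hJ1 j hj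
      have h1 := hunit _ hθ
      have h2 : V.valuation (y (Fin.natAdd n j)) ≤ 1 := by
        rw [hyq, map_div₀, h1, div_one]
        exact (V.valuation_le_one_iff _).2 (ξ' (Sum.inr (Fin.natAdd n j))).2
      refine ⟨⟨y (Fin.natAdd n j), (V.valuation_le_one_iff _).1 h2⟩, fun _ => ⟨rfl, ?_⟩⟩
      rw [eq_div_iff hθ, ← map_mul]
      congr 1
      apply Subtype.ext
      have h3 : ((ζ' (Sum.inr (Fin.natAdd n j)) : V) : ℂ) ≠ 0 := by
        rw [← V.valuation.ne_zero_iff, h1]
        exact one_ne_zero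
      show y (Fin.natAdd n j) * (ζ' (Sum.inr (Fin.natAdd n j)) : ℂ) = _
      rw [hyq, div_mul_cancel₀ _ h3]
    · exact ⟨0, fun h => absurd h hj⟩
  choose z hz using hz
  have htorus : ∀ a ∈ R, (∀ j, j ∉ J → a j = 0) → a = 0 := by
    intro a haR haJ
    have hrel := hxZ2.2 a haR
    -- a common order
    have hord : ∀ j, ∃ N : ℕ, 0 < N ∧ (ρ j / D.σ (D.ω j)) ^ N = 1 := by
      intro j
      obtain ⟨N₁, hN₁, h1⟩ := hρ j
      obtain ⟨N₂, hN₂, h2⟩ := (D.torsion j).root
      refine ⟨N₁ * N₂, Nat.mul_pos hN₁ hN₂, ?_⟩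
      have h3 : D.σ (D.ω j) ^ N₂ = 1 := by rw [← map_pow, h2, map_one]
      rw [div_pow, pow_mul, h1, one_pow, mul_comm N₁, pow_mul, h3, one_pow, div_one]
    choose N hN hN1 using hord
    have hωC : ∀ j, D.σ (D.ω j) ≠ 0 := fun j => (map_ne_zero D.σ).2 (hω j)
    have hprod : ∏ j, (1 + D.σ (D.ν j) * (fun j => if j ∈ J then y (Fin.natAdd n j) else 0) j) ^ a j =
        ∏ j, (ρ j / D.σ (D.ω j)) ^ a j := by
      have e1 : ∏ j, (1 + D.σ (D.ν j) * (fun j => if j ∈ J then y (Fin.natAdd n j) else 0) j) ^ a j =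
          ∏ j, (x (Fin.natAdd n j) / D.σ (D.ω j)) ^ a j := by
        refine Finset.prod_congr rfl fun j _ => ?_
        by_cases hj : j ∈ J
        · have e : x (Fin.natAdd n j) =
              D.σ (D.ω j) * (1 + D.σ (D.ν j) * y (Fin.natAdd n j)) := hxt j
          rw [e, mul_div_cancel_left₀ _ (hωC j)]
          simp only [if_pos hj]
        · rw [haJ j hj, zpow_zero, zpow_zero]
      rw [e1]
      have e2 : ∀ u : Fin k → ℂ, ∏ j, (u j / D.σ (D.ω j)) ^ a j =
          (∏ j, u j ^ a j) / ∏ j, D.σ (D.ω j) ^ a j := by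
        intro u
        rw [← Finset.prod_div_distrib]
        exact Finset.prod_congr rfl fun j _ => div_zpow _ _ _
      rw [e2 (fun j => x (Fin.natAdd n j)), e2 ρ]
      have h5 : ∏ j, (fun j : Fin k => x (Fin.natAdd n j)) j ^ a j = ∏ j, ρ j ^ a j := hrel
      rw [h5]
    refine Pool.Agent.U854.CL.torus_free V D.prime hpV J (fun j => D.σ (D.ν j))
      (fun j => if j ∈ J then y (Fin.natAdd n j) else 0)
      (fun j _ => (map_ne_zero D.σ).2 (hν j)) ?_ ?_ ?_ ?_ haJ (N := ∏ j, N j)
      (Finset.prod_pos fun j _ => hN j) ?_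
    · intro j _
      have h3 := Pool.Agent.N135.ZO.val_pow_lt hA1 hA2 (x := D.ν j ^ (D.p - 1))
        (y := (D.p : D.K)) hpK (by
          rw [map_pow]
          exact (D.torsion j).scale_lt)
      rw [map_pow, map_pow, map_natCast] at h3
      exact h3
    · intro j hj
      simp only [if_pos hj]
      rw [← ((hz j) hj).1]
      exact (V.valuation_le_one_iff _).2 (z j).2
    · intro j _ j' _
      by_cases hjj : j = j'
      · exact Or.inl ⟨0, 0, by rw [hjj]⟩
      rcases D.scales j j' hjj with h | h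
      · exact Or.inr fun s t => incomparable_val D.prime hA1 hA2 (hν j) (hν j') h s t
      · exact Or.inl (comparable_map.2 h)
    · intro j₀ hj₀ b hb hlt
      refine hJ2 j₀ hj₀ b (fun j h => ⟨(hb j h).1, comparable_map.1 (hb j h).2⟩) ?_
      have h1 : res (∑ j, (b j : V) * z j) = 0 := by
        rw [hres]
        have e : ((∑ j, (b j : V) * z j : V) : ℂ) =
            ∑ j, (b j : ℂ) * (if j ∈ J then y (Fin.natAdd n j) else 0) := by
          push_cast
          refine Finset.sum_congr rfl fun j _ => ?_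
          by_cases hbj : b j = 0
          · rw [hbj, Int.cast_zero, zero_mul, zero_mul]
          · have hj := (hb j hbj).1
            rw [if_pos hj, ((hz j) hj).1]
        rw [e]
        exact hlt
      rw [map_sum] at h1
      rw [← h1]
      refine Finset.sum_congr rfl fun j _ => ?_
      rw [map_mul, map_intCast]
      by_cases hbj : b j = 0
      · rw [hbj, Int.cast_zero, zero_mul, zero_mul]
      · rw [((hz j) (hb j hbj).1).2]
    · rw [hprod, ← Finset.prod_pow]
      refine Finset.prod_eq_one fun j _ => ?_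
      obtain ⟨q, hq⟩ := Finset.dvd_prod_of_mem N (Finset.mem_univ j)
      rw [hq, ← zpow_natCast, ← zpow_mul, mul_comm, zpow_mul, zpow_natCast, pow_mul, hN1, one_pow,
        one_zpow]
  have hcardJ : Module.finrank ℤ R + J.card ≤ k := by
    by_contra hlt
    push Not at hlt
    have h1 : (Finset.univ \ J).card < Module.finrank ℤ R := by
      have h2 := Finset.card_sdiff_add_card_eq_card (Finset.subset_univ J)
      rw [Finset.card_univ, Fintype.card_fin] at h2
      omega
    obtain ⟨a, haR, ha0, ha⟩ := exists_relation R _ h1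
    exact ha0 (htorus a haR fun j hj => ha j (Finset.mem_sdiff.2 ⟨Finset.mem_univ j, hj⟩))
  omega

theorem main {n k m : ℕ} {D : LocalData n k} (F : Family D) (hF : F.LinearPosition m)
    (X : Set (Fin (n + k) → ℂ)) (hX : X ⊆ F.image) : NoAtypical X m := by
  intro r Z M η hη
  have hpt : ∀ x ∈ X ∩ product Z M η, ∀ W : Finset (Fin (n + k)),
      AlgebraicIndependent ℚ (fun i : W => x i) → n + Module.finrank ℤ M + W.card ≤ m + r :=
    fun x hx W hW => main_pt F hF Z M hη (hX hx.1) hx.2 W hW
  refine ⟨hpt, ?_⟩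
  intro A hA hcl hprime
  obtain ⟨w, hw⟩ := Pool.Agent.W282.ZP.nonempty_of_prime hprime
  obtain ⟨x, hxA, hx0, W, hW, hdim⟩ := Pool.Agent.W282.SI.generic_dim' ℚ A hprime
    (β := Fin k) (fun j => MvPolynomial.X (Fin.natAdd n j)) (by
      intro j hj
      rw [Pool.Agent.W282.ZP.mem_idealOf] at hj
      have h2 := hj w hw
      rw [MvPolynomial.eval_X] at h2
      exact (hA hw).2.2.1 j h2)
  have hxA' : x ∈ A := hcl x hxA fun j => by
    have h2 := hx0 j
    rwa [MvPolynomial.eval_X] at h2
  have h := hpt x (hA hxA') W hW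
  calc (n : Cardinal) + (Module.finrank ℤ M : Cardinal) + Pool.Agent.W282.ZP.zdim A ≤
        (n : Cardinal) + (Module.finrank ℤ M : Cardinal) + (W.card : Cardinal) := by gcongr
    _ = ((n + Module.finrank ℤ M + W.card : ℕ) : Cardinal) := by push_cast; rfl
    _ ≤ ((m + r : ℕ) : Cardinal) := by exact_mod_cast h
    _ = (m : Cardinal) + (r : Cardinal) := by push_cast; rfl

theorem eval_mem {R : Type} [CommRing R] {v : Ideal R} {k : Type} [Field k] [Algebra (R ⧸ v) k]
    {s : ℕ} (G : MultiForm R s) (A : Subalgebra (R ⧸ v) k) (u w : Fin s → k)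
    (hu : ∀ i, u i ∈ A) (hw : ∀ i, w i ∈ A) : G.eval (reduction v k) u w ∈ A := by
  unfold MultiForm.eval
  refine A.sum_mem fun e _ => A.mul_mem ?_ (A.prod_mem fun i _ =>
    A.mul_mem (A.pow_mem (hu i) _) (A.pow_mem (hw i) _))
  exact A.algebraMap_mem _

theorem line_linear {n k : ℕ} (D : LocalData n k) (N M : Fin (n + k) → MultiForm (𝓞 D.K) 1)
    (h : ∀ i, (N i).deg = (M i).deg) (hL : LinePosition D N M) :
    (rational D N M h).LinearPosition 1 := by
  classical
  intro κ _ _ ξ ζ η θ hgr W hW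
  obtain ⟨h1, h2, -, h4⟩ := hgr
  change Fin 1 → κ at ξ ζ
  change ∀ j : Fin 1, ξ j ≠ 0 ∨ ζ j ≠ 0 at h1
  change ∀ i, η i * (M i).eval (reduction D.v.asIdeal κ) ξ ζ =
    θ i * (N i).eval (reduction D.v.asIdeal κ) ξ ζ at h4
  obtain ⟨S, J, hc, htr, ⟨hS1, hS2, hJ1, hJ2⟩, hNM⟩ := hL κ ξ ζ (h1 0)
  have hquot : ∀ i, η i / θ i = (N i).eval (reduction D.v.asIdeal κ) ξ ζ /
      (M i).eval (reduction D.v.asIdeal κ) ξ ζ := by
    intro i
    by_cases hM : (M i).eval (reduction D.v.asIdeal κ) ξ ζ = 0
    · have hN := (hNM i).resolve_right (fun h => h hM)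
      have h5 := h4 i
      rw [hM, mul_zero] at h5
      have hθ := (mul_eq_zero.1 h5.symm).resolve_right hN
      rw [hM, hθ, div_zero, div_zero]
    · have hθ : θ i ≠ 0 := by
        intro hθ
        have h5 := h4 i
        rw [hθ, zero_mul] at h5
        rcases h2 i with h6 | h6
        · exact (mul_ne_zero h6 hM) h5
        · exact h6 hθ
      rw [div_eq_div_iff hθ hM]
      linear_combination h4 i
  have hfin : ∀ i, (M i).eval (reduction D.v.asIdeal κ) ξ ζ ≠ 0 → θ i ≠ 0 := by
    intro i hM hθ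
    have h5 := h4 i
    rw [hθ, zero_mul] at h5
    rcases h2 i with h6 | h6
    · exact (mul_ne_zero h6 hM) h5
    · exact h6 hθ
  have hfree : D.Free η θ S J := by
    refine ⟨fun i hi => ?_, fun i hi j hj hij hlk => ?_, fun j hj => hfin _ (hJ1 j hj),
      fun j₀ hj₀ b hb hsum => hJ2 j₀ hj₀ b hb ?_⟩
    · obtain ⟨hN, hM⟩ := hS1 i hi
      have hθ := hfin _ hM
      refine ⟨fun hη => ?_, hθ⟩
      have h5 := h4 (Fin.castAdd k i)
      rw [hη, zero_mul] at h5
      exact (mul_ne_zero hθ hN) h5.symm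
    · refine hS2 i hi j hj hij ?_
      unfold LocalData.Linked at hlk ⊢
      rw [hquot, hquot] at hlk
      exact hlk
    · simp only [← hquot]
      exact hsum
  have hprime : D.v.asIdeal.IsPrime := D.v.isPrime
  have hfaith : FaithfulSMul (𝓞 D.K ⧸ D.v.asIdeal) κ := by
    rw [faithfulSMul_iff_algebraMap_injective]
    have hmax : D.v.asIdeal.IsMaximal := D.v.isMaximal
    let _ := Ideal.Quotient.field D.v.asIdeal
    exact (algebraMap (𝓞 D.K ⧸ D.v.asIdeal) κ).injective
  have hcard := Pool.Agent.U854.CL.line_card (F := 𝓞 D.K ⧸ D.v.asIdeal) W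
    (fun i => η i / θ i) (ξ 0 / ζ 0) (fun i _ => by
      set A := Algebra.adjoin (𝓞 D.K ⧸ D.v.asIdeal) {ξ 0 / ζ 0} with hA
      have htA : ξ 0 / ζ 0 ∈ A := Algebra.subset_adjoin rfl
      by_cases hζ : ζ 0 = 0
      · have hξ : ξ 0 ≠ 0 := (h1 0).resolve_right (fun h => h hζ)
        refine ⟨(N i).eval (reduction D.v.asIdeal κ) (fun _ => 1) (fun _ => 0),
          eval_mem _ A _ _ (fun _ => A.one_mem) (fun _ => A.zero_mem),
          (M i).eval (reduction D.v.asIdeal κ) (fun _ => 1) (fun _ => 0),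
          eval_mem _ A _ _ (fun _ => A.one_mem) (fun _ => A.zero_mem), ?_⟩
        have e1 : ξ = fun j => (fun _ : Fin 1 => ξ 0) j * (fun _ : Fin 1 => (1 : κ)) j := by
          funext j
          rw [Subsingleton.elim j 0, mul_one]
        have e2 : ζ = fun j => (fun _ : Fin 1 => ξ 0) j * (fun _ : Fin 1 => (0 : κ)) j := by
          funext j
          rw [Subsingleton.elim j 0, mul_zero, hζ]
        have hsc : ∀ G : MultiForm (𝓞 D.K) 1, G.eval (reduction D.v.asIdeal κ) ξ ζ =
            G.eval (reduction D.v.asIdeal κ) (fun _ => 1) (fun _ => 0) *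
              ∏ i, (fun _ : Fin 1 => ξ 0) i ^ G.deg i := by
          intro G
          rw [← eval_scale, ← e1, ← e2]
        show η i / θ i = _
        rw [hquot, hsc, hsc, h i]
        exact mul_div_mul_right _ _ (Finset.prod_ne_zero_iff.2 fun j _ => pow_ne_zero _ hξ)
      · refine ⟨(N i).eval (reduction D.v.asIdeal κ) (fun _ => ξ 0 / ζ 0) (fun _ => 1),
          eval_mem _ A _ _ (fun _ => htA) (fun _ => A.one_mem),
          (M i).eval (reduction D.v.asIdeal κ) (fun _ => ξ 0 / ζ 0) (fun _ => 1),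
          eval_mem _ A _ _ (fun _ => htA) (fun _ => A.one_mem), ?_⟩
        have e1 : ξ = fun j => (fun _ : Fin 1 => ζ 0) j * (fun _ : Fin 1 => ξ 0 / ζ 0) j := by
          funext j
          rw [Subsingleton.elim j 0, mul_div_cancel₀ _ hζ]
        have e2 : ζ = fun j => (fun _ : Fin 1 => ζ 0) j * (fun _ : Fin 1 => (1 : κ)) j := by
          funext j
          rw [Subsingleton.elim j 0, mul_one]
        have hsc : ∀ G : MultiForm (𝓞 D.K) 1, G.eval (reduction D.v.asIdeal κ) ξ ζ =
            G.eval (reduction D.v.asIdeal κ) (fun _ => ξ 0 / ζ 0) (fun _ => 1) *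
              ∏ i, (fun _ : Fin 1 => ζ 0) i ^ G.deg i := by
          intro G
          rw [← eval_scale, ← e1, ← e2]
        show η i / θ i = _
        rw [hquot, hsc, hsc, h i]
        exact mul_div_mul_right _ _ (Finset.prod_ne_zero_iff.2 fun j _ => pow_ne_zero _ hζ)) hW
  refine ⟨S, J, hfree, ?_⟩
  by_cases ht : IsAlgebraic (𝓞 D.K ⧸ D.v.asIdeal) (ξ 0 / ζ 0)
  · have := hcard.2 ht
    omega
  · obtain ⟨h5, h5'⟩ := htr ht
    have h6 := hcard.1
    rw [h5, h5', Finset.card_univ, Finset.card_univ, Fintype.card_fin, Fintype.card_fin]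
    omega

/-- **Zilber-Pink for subvarieties of `Y(1)^n × G_m^k` near to one special point.** -/
theorem result :
    -- the criterion
    (∀ (n k m : ℕ) (D : LocalData n k) (F : Family D), F.LinearPosition m →
      ∀ X ⊆ F.image, NoAtypical X m) ∧
    -- rational curves
    (∀ (n k : ℕ) (D : LocalData n k) (N M : Fin (n + k) → MultiForm (𝓞 D.K) 1)
      (h : ∀ i, (N i).deg = (M i).deg), LinePosition D N M →
      NoAtypical (rational D N M h).image 1) :=
  ⟨fun _ _ _ _ F hF X hX => main F hF X hX, fun _ _ D N M h hL =>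
    main _ (line_linear D N M h hL) _ subset_rfl⟩

end Pool.Agent.Results.MP_a325a5_ag.LinearReduction
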