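import Pool.Agent.Results.MP_a325a5_ag.RandomOrbits
import Pool.Agent.U125.NO.Seq

/-!
# MP_a325a5_ag: Zilber-Pink for the translates of all subvarieties of all the mixed Shimura varieties
`Y(1)^n × G_m^k` along normal sequences of integral vectors

The ambient variety is `X = Y(1)^n × G_m^k = ℂ^n × (ℂ^×)^k`. Let `V` be an arbitrary subset of `X` of
dimension at most `m`. We move `V` by Möbius maps `x ↦ ρ_i (x - β_i) / (x - δ_i)` in the modular coordinates,
generic in the sense that none of the `2 ^ n` points with coordinates `s_i ∈ {β_i, δ_i}` is on a hypersurface
`R = 0` which depends on `V` only, and then divide all the coordinates by the positive integers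
`c_i = ∏_l |x_l| ^ e_{l i}`, where `x` is an integral vector with `M ≥ M₀(V)` coordinates and the exponents are
independent (definitions of the starting result `RandomOrbits`).

There it is shown that for almost every random orbit `x(0), x(1), …` of a thin group there is one set `E` of
density zero such that for all `V` the translate has no atypical intersections for `x = x(t)`, all but finitely
many `t ∉ E`. Here the sequence is a given one:

**Theorem.** Let `x(0), x(1), …` be a normal orbit in `ℤ^M` (`NormalOrbit`): the orbit of an integral vector under a
finite family of integral affine maps along ANY normal sequence of indices, the family being wide (for all `q`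
prime to some `q₀` the maps are bijective modulo `q`, and the vector can be moved to at least the proportion
`ε > 0`, not depending on `q`, of all vectors modulo `q`). There is ONE set `E` of times of density zero such that
for ALL `n`, `k`, `V` with `M₀(V) ≤ M`, all generic Möbius maps and all finite sets `Γ`, for all but finitely many
times `t ∉ E` and ALL independent exponents `e` the translate `c⁻¹ g V`, `c_i = ∏_l |x(t)_l| ^ e_{l i}`, has no
atypical intersection with any product `Z × T` of a special subvariety `Z` of `Y(1)^n` and a torsion coset `T`.
More generally the constant coordinates of `Z` may be isogenous to an element of `Γ` or integral over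
`ℤ[Γ]`, and `T` may be a coset by a point of the division hull of the group generated by `Γ`.

Examples: (1) `x(t)_l = ⌊b ^ t ξ_l⌋` for ANY vector `ξ` of real numbers which is normal to the base `b ≥ 2`;
(2) the orbit of any vector `v ≠ 0` along ANY normal word in matrices which generate the special linear
group modulo all `q` prime to some `q₀` (generators of a thin group); (3) vectors of integers whose
digits are chosen from a restricted set of vectors.

Proof. Outside of pronull sets `B D` every coordinate of `x` has a prime divisor `p > D` of multiplicity one
which does not divide the other coordinates, and the translation by `c` is then covered by the starting result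
`MixedTranslates`. A normal orbit visits a pronull set only at times of density zero (engine
`Pool.Agent.U125.NO`); a diagonal argument gives one set `E`.
-/

set_option autoImplicit false

namespace Pool.Agent.Results.MP_a325a5_ag.NormalSequences

open Filter Topology
open Pool.Agent.U125.NO (NormalOrbit Examples examples)
open Pool.Agent.Results.MP_defd1c_ag.MixedTranslates (DimLE NoAtypical translate Independent)
open Pool.Agent.Results.MP_a325a5_ag.RandomOrbits (move Generic Null)

theorem result :
    (∃ (M₀ : ∀ n k : ℕ, ℕ → Set (Fin n ⊕ Fin k → ℂ) → ℕ)
      (R : ∀ n k : ℕ, ℕ → Set (Fin n ⊕ Fin k → ℂ) → MvPolynomial (Fin n) ℂ),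
      (∀ n k m V, R n k m V ≠ 0) ∧
      ∀ (M : ℕ) (x : ℕ → Fin M → ℤ), NormalOrbit x → ∃ E : Set ℕ, Null E ∧
        ∀ (n k m : ℕ) (V : Set (Fin n ⊕ Fin k → ℂ)), DimLE m V → M₀ n k m V ≤ M →
          ∀ β δ ρ : Fin n → ℂ, Generic (R n k m V) β δ ρ → ∀ Γ : Finset ℂ,
            {t : ℕ | t ∉ E ∧ ¬ ∀ e : Fin M → Fin n ⊕ Fin k → ℕ, Independent e →
                NoAtypical Γ m (translate V β δ ρ (move e (x t)))}.Finite) ∧
    ∀ M : ℕ, Examples (Fin M) := by
  obtain ⟨M₀, R, hR, h⟩ := Pool.Agent.Results.MP_a325a5_ag.RandomOrbits.result
  refine ⟨⟨M₀, R, hR, fun M x hx => ?_⟩, fun M => examples (Fin M)⟩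
  obtain ⟨B, hB, hgood⟩ := (h M).1
  obtain ⟨E, hE1, hE2⟩ := Pool.Agent.N901.ORB.ZPM.diag_countable (fun D : ℕ => {t : ℕ | x t ∈ B D})
    (fun D => hx.avoids (fun y => y ∈ B D) (hB D))
  refine ⟨E, hE1, fun n k m V hV hle β δ ρ hg Γ => ?_⟩
  obtain ⟨D, hD⟩ := hgood n k m V hV hle β δ ρ hg Γ
  refine (hE2 D).subset ?_
  rintro t ⟨ht1, ht2⟩
  refine ⟨?_, ht1⟩
  by_contra h'
  exact ht2 (hD _ h')

end Pool.Agent.Results.MP_a325a5_ag.NormalSequences
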