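import Pool.Agent.U854.SA.Res
import Pool.Agent.U854.OP.Core
import Pool.Agent.TH971.RF.C2
import Pool.Agent.W282.LF.Top

/-!
# MP_a325a5_ag: Zilber-Pink for subvarieties of the mixed Shimura varieties `ℰ^q × Y(1)^n × G_m^k` from
their behaviour at one place

`ℰ^q × Y(1)^n × G_m^k`, of dimension `n + 1 + q + k`, parametrizes elliptic curves `E` with `q` points
`P_1, …, P_q`, `n` numbers `x_1, …, x_n` (the `j`-invariants of `n` more elliptic curves) and `k` nonzero
numbers `u_1, …, u_k`. Here `ℰ` is the universal elliptic curve over `Y(1)`.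

**Special subvarieties** (`InSpecial`, as in the starting file `RandomSubvarieties`). The image in
`Y(1)^(n+1)` of a special subvariety is a special subvariety `Z`: its constant coordinates are CM points,
its coordinates of class `l` are `j (g_i z_l)`. Over `Z` it is given by a module of relations, up to
torsion, between the points `P_1, …, P_q` over the ring of endomorphisms of `E` (this is `ℤ` or, if `E` is
constant with complex multiplication on `Z`, an order in an imaginary quadratic field), and by a group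
of multiplicative relations between the `u_w` up to roots of unity. The codimension is
`(n + 1 - dim Z) + ρ₁ + ρ₂`, with the ranks `ρ₁`, `ρ₂` of the module and of the group.

**The subvarieties.** Let `K ⊂ ℂ` be a number field, `V ⊆ (P¹)^r` a variety of any dimension given by
multihomogeneous forms over `𝓞 K`, and `E_s : y² = x³ + A(s) x + B(s)`, `A` and `B` forms of multidegrees
`4 ε` and `6 ε`, an elliptic scheme over an open subset of `V`. Let `X` be the set of all points
`(E_s, P, x, u)` of `ℰ^q × Y(1)^n × G_m^k`, `s ∈ V`, such that (`InX`)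

* the points `P_l` are on multisections `∑_h μ_l^h F_{l,h}(s) x(P_l)^(R_l - h) = 0`, `F_{l,h}` a form of
  multidegree `d_l + 2 h ε` for `h ≤ R_l`;
* `j(E_s) = c_0 + ν_0 N_0(s) / M_0(s)`, `x_i = c_i + ν_i N_i(s) / M_i(s)`, `u_w = c_w + ν_w N_w(s) / M_w(s)`,
  with forms `N_i`, `M_i` of the same multidegree, `c_i ∈ K`, `ν_i ∈ K^×`. (For `j(E_s)` this is a property
  of `A` and `B`.)

(If `X'` is any subvariety, one can take `V = X'` as the base, with the pull-back of `ℰ`.)

**The condition.** Let `v` be a prime of `K` above `p`, with ramification index `e`.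

* The reduction modulo `v` is in general position (`GeneralPosition`): on the reduction of `V` the
  locus where, for `a` of the `q + (n + 1) + k` indices, one of the critical forms `F_{l,0}`, `F_{l,R_l}` or
  `N_i`, `M_i` is zero has dimension at most `m - a`, for all `a ≥ 0`.
* The local types (`LocalTypes`). `|μ_l| = |ϖ|^(-f_l)` with `2 f_l > e`, and the levels `f_l` are pairwise
  incongruent modulo `e`. So the `P_l` are near to the origin. At most one of the `n + 1` modular
  coordinates is cuspidal, `max(|c_i|, |ν_i|) > 1`, the others are near to pairwise not isogenous CM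
  points `a_i = j(τ_i)`, ordinary at `p ≠ 2` and not congruent to `0`, `1728`: the distance
  `d = max(|c_i - a_i|, |ν_i|)` satisfies `d < 1` and `d^((p-1)p^t) ≠ |p|` for all `t`. At most one of the
  torus coordinates is polar, `max(|c_w|, |ν_w|) ≠ 1`, the others are near to roots of unity, with
  `d_w^(p-1) < |p|` and `d_w / d_w' ∉ |p|^ℤ`. (In each case the two numbers in the maximum are different.)

For instance `j(E_s)` is cuspidal for `A = -3 a²`, `B = 2 a³ + ϖ^h b` with forms `a`, `b` of degrees `2 ε`,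
`6 ε`, and `p ≥ 5`: then `N_0 = a⁶`, `M_0 = b (4 a³ + ϖ^h b)`, `c_0 = 0`, `ν_0 = -6912 / ϖ^h`.

**Theorem** (`result`).
1. Then `X` has no atypical intersection with special subvarieties (`NoAtypical`): for all `ρ`, if a
   point of `X` over `s ∈ V(ℂ)` is in a special subvariety of codimension at least `ρ`, then `s` has
   transcendence degree at most `m - ρ`, and all irreducible closed sets of such points `s` have
   dimension at most `m - ρ`. In particular `X` does not meet the special subvarieties of codimension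
   larger than `m`. This holds for all `r`, `q`, `n`, `k`, `m`.
2. In particular (`r = 1`, `m = 1`, rational curves) it is sufficient that the critical forms are not
   zero modulo `v` and those of different indices have no common zeros modulo `v`.

The starting results on `ℰ^q × Y(1)^n × G_m^k` are about a positive proportion of pull-backs
(`RandomSubvarieties`), about scalings by spread out integers for the Legendre family
(`LegendreScaledImages`), and about curves with `q = 1` (`EllipticSurfaceProducts`). The results from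
few places (`MixedCuspidalReduction`, `TropicalLocalCriterion`, and our `MP_defd1c_ag.OnePlace`) are about
`Y(1)^n × G_m^k`, the case `q = 0`, and our `MP_28d749_ag.OnePlace` is about the fibres of elliptic schemes,
without the modular and multiplicative relations.

Proof: over the place there is a valuation ring of `ℂ` which extends the Gauss valuation of the
algebraically independent coordinates of `s`, with rational values. At most `m - |W|` indices are bad.
At the others the modular coordinates are of different classes and not constant (as in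
`MP_d83ecd_ag.MixedPlaces`), the points `P_l` are independent over the endomorphism ring
(`Pool.Agent.TH971.RF.rel_placeE` of the starting library) and the `u_w` are multiplicatively
independent (as in `MP_defd1c_ag.OnePlace`).
-/

set_option autoImplicit false

namespace Pool.Agent.Results.MP_a325a5_ag.OnePlace

open UpperHalfPlane H294ZP NumberField IsDedekindDomain

/-- The elliptic curve `y² = x³ + a x + b`. -/
def curve (a b : ℂ) : WeierstrassCurve.Affine ℂ := ⟨0, 0, 0, a, b⟩

/-- The `x`-coordinate of a point of the curve (`0` for the origin). -/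
def xCoord {a b : ℂ} : (curve a b).Point → ℂ
  | .zero => 0
  | .some x _ _ => x

/-- The map `φ` of the points of the curve `y² = x³ + a x + b` to itself is given on the
`x`-coordinates by a rational function `u / w` with `u(x) / w(x) ~ x / c²` for `x → ∞`. -/
def ActsByRational {a b : ℂ} (c : ℂ) (φ : (curve a b).Point → (curve a b).Point) : Prop :=
  ∃ u w : Polynomial ℂ, w ≠ 0 ∧ u.natDegree = w.natDegree + 1 ∧
    w.leadingCoeff = c ^ 2 * u.leadingCoeff ∧
    ∀ P : (curve a b).Point, P ≠ 0 → w.eval (xCoord P) ≠ 0 →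
      φ P ≠ 0 ∧ xCoord (φ P) * w.eval (xCoord P) = u.eval (xCoord P)

/-- A ring of endomorphisms of the curve `y² = x³ + a x + b`: a ring `O` of complex numbers which
acts on the group of points. For an endomorphism which is multiplication by `λ` on the tangent space
at the origin the number `λ` is an integer or an imaginary quadratic integer, in particular it
satisfies an equation `λ² - T λ + N = 0` with integers `T, N`, and if it is not an integer, the
`x`-coordinate of the image of a point is a rational function `u / w` of the `x`-coordinate of the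
point, with `u(x) / w(x) ~ x / λ²` for `x → ∞`. (The integers in `O` act by multiplication, as `act`
is a homomorphism of rings.) -/
structure EndRing (a b : ℂ) where
  /-- the ring -/
  O : Subring ℂ
  /-- its action on the points -/
  act : O →+* AddMonoid.End (curve a b).Point
  quad : ∀ c : O, ∃ T N : ℤ, (c : ℂ) ^ 2 - T * c + N = 0
  rat : ∀ c : O, (∀ n : ℤ, (c : ℂ) ≠ n) → ActsByRational c (act c)

/-- The linear combination `∑ c_l (P_l)` of points with endomorphisms `c_l` as coefficients. -/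
noncomputable def EndRing.comb {a b : ℂ} (E : EndRing a b) {q : ℕ} (c : Fin q → E.O)
    (P : Fin q → (curve a b).Point) : (curve a b).Point :=
  ∑ l, E.act (c l) (P l)

/-- The coefficients `c_1, …, c_q` are a relation between the points `P_1, …, P_q` up to torsion:
the point `∑ c_l (P_l)` is a torsion point. -/
def EndRing.Relation {a b : ℂ} (E : EndRing a b) {q : ℕ} (c : Fin q → E.O)
    (P : Fin q → (curve a b).Point) : Prop :=
  ∃ t : ℕ, 0 < t ∧ t • E.comb c P = 0

/-- The point `(P_1, …, P_q)` of the `q`-th power of the curve is in an algebraic subgroup of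
codimension at least `ρ`: the module of the relations between the `P_l` over some ring of
endomorphisms of the curve has rank at least `ρ`, it has `ρ` linearly independent elements. -/
def InSubgroup {a b : ℂ} {q : ℕ} (P : Fin q → (curve a b).Point) (ρ : ℕ) : Prop :=
  ∃ (E : EndRing a b) (c : Fin ρ → Fin q → E.O),
    LinearIndependent ℂ (fun i l => (c i l : ℂ)) ∧ ∀ i, E.Relation (c i) P

/-- The point `u` of `G_m^k` is in an algebraic subgroup of codimension at least `ρ`: there are `ρ`
linearly independent vectors `a` such that `∏ u_w ^ (a_w)` is a root of unity. -/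
def InSubtorus {k : ℕ} (u : Fin k → ℂ) (ρ : ℕ) : Prop :=
  ∃ a : Fin ρ → Fin k → ℤ, LinearIndependent ℤ a ∧
    ∀ i, ∃ t : ℕ, 0 < t ∧ (∏ w, u w ^ a i w) ^ t = 1

/-- A special subvariety of dimension `r` of `Y(1)^n`: a map `cls` from the coordinates onto `r`
classes (`none` for the constant coordinates), an integral matrix of positive determinant for each
coordinate, and a CM point for each coordinate. -/
structure SpecialVariety (n r : ℕ) where
  cls : Fin n → Option (Fin r)
  surj : ∀ l : Fin r, ∃ i, cls i = some l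
  mat : Fin n → Matrix (Fin 2) (Fin 2) ℤ
  det_pos : ∀ i, 0 < (mat i).det
  cm : Fin n → ℍ
  isCM : ∀ i, IsCM (cm i)

/-- The points of a special subvariety: the constant coordinates are the singular moduli
`j (cm i)`, the other coordinates are `j (g_i z_l)`, where `l` is the class of `i`, `g_i = mat i` and
`z_1, …, z_r` are free parameters in the upper half plane. -/
def SpecialVariety.locus {n r : ℕ} (Z : SpecialVariety n r) : Set (Fin n → ℂ) :=
  {x | ∃ z : Fin r → ℍ, ∀ i, (Z.cls i = none → x i = jj (Z.cm i)) ∧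
    ∀ l, Z.cls i = some l → ∃ w : ℍ,
      (w : ℂ) * (Z.mat i 1 0 * z l + Z.mat i 1 1) = Z.mat i 0 0 * z l + Z.mat i 0 1 ∧ x i = jj w}

/-- The CM point `τ` is ordinary at `p`: `τ` is fixed by an integral matrix `M` whose determinant is
a power of `p` and whose trace is prime to `p` (`p` splits in the field `ℚ(τ)` and does not divide
the conductor). -/
def OrdinaryAt (p : ℕ) (τ : ℍ) : Prop :=
  ∃ (e : ℕ) (M : Matrix (Fin 2) (Fin 2) ℤ), 0 < e ∧ M.det = (p : ℤ) ^ e ∧ ¬ (p : ℤ) ∣ M.trace ∧
    (τ : ℂ) * (M 1 0 * τ + M 1 1) = M 0 0 * τ + M 0 1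

/-- `x` and `x'` are the `j`-invariants of isogenous elliptic curves. -/
def Isogenous (x x' : ℂ) : Prop :=
  ∃ (g : Matrix (Fin 2) (Fin 2) ℤ) (τ τ' : ℍ), 0 < g.det ∧
    (τ' : ℂ) * (g 1 0 * τ + g 1 1) = g 0 0 * τ + g 0 1 ∧ jj τ = x ∧ jj τ' = x'

/-- A form with coefficients in `R` which is homogeneous of degree `deg i` in `(ξ i, ζ i)` for each
`i`: the coefficients of the monomials `∏ ξ_i ^ (e_i) ζ_i ^ (deg i - e_i)`. -/
structure MultiForm (R : Type) (r : ℕ) (deg : Fin r → ℕ) where
  coeff : ((i : Fin r) → Fin (deg i + 1)) → R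

/-- The value of the form at a point over `k`, for a ring homomorphism `R → k`. -/
def MultiForm.eval {R k : Type} [CommRing R] [CommRing k] {r : ℕ} {deg : Fin r → ℕ}
    (F : MultiForm R r deg) (π : R →+* k) (ξ ζ : Fin r → k) : k :=
  ∑ e, π (F.coeff e) * ∏ i, ξ i ^ (e i : ℕ) * ζ i ^ (deg i - e i)

/-- The form is not zero modulo `v`. -/
def MultiForm.NonzeroMod {R : Type} [CommRing R] {r : ℕ} {deg : Fin r → ℕ} (F : MultiForm R r deg)
    (v : Ideal R) : Prop :=
  ∃ e, F.coeff e ∉ v

/-- The equations of the variety `V ⊆ (P¹)^r` (forms `H_t`), of the elliptic scheme over `V` (forms `A`,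
`B` of the multidegrees `4 ε`, `6 ε`), of the multisections (forms `F_{l,h}` of the multidegrees
`d_l + 2 h ε`, `h ≤ R_l`, and scales `μ_l`), and of the modular and torus coordinates (forms `N_i`, `M_i`
of the same multidegree, centres `c_i` and scales `ν_i`; the index `Sum.inl 0` belongs to the
`j`-invariant of the elliptic scheme, `Sum.inl i` to the other coordinates in `Y(1)^n`, and `Sum.inr w`
to the torus coordinates). All this over a number field `K ⊆ ℂ`. -/
structure Data (r n q k : ℕ) where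
  K : Type
  [field : Field K]
  [numberField : NumberField K]
  σ : K →+* ℂ
  T : Type
  degH : T → Fin r → ℕ
  H : (t : T) → MultiForm (𝓞 K) r (degH t)
  ε : Fin r → ℕ
  A : MultiForm (𝓞 K) r (fun j => 4 * ε j)
  B : MultiForm (𝓞 K) r (fun j => 6 * ε j)
  R : Fin q → ℕ
  d : Fin q → Fin r → ℕ
  F : (l : Fin q) → (h : Fin (R l + 1)) → MultiForm (𝓞 K) r (fun j => d l j + 2 * h * ε j)
  μ : Fin q → K
  D : Fin (n + 1) ⊕ Fin k → Fin r → ℕ
  N : (i : Fin (n + 1) ⊕ Fin k) → MultiForm (𝓞 K) r (D i)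
  M : (i : Fin (n + 1) ⊕ Fin k) → MultiForm (𝓞 K) r (D i)
  c : Fin (n + 1) ⊕ Fin k → K
  ν : Fin (n + 1) ⊕ Fin k → K

attribute [instance] Data.field Data.numberField

variable {r n q k : ℕ}

/-- the embedding of the ring of integers into `ℂ` -/
def Data.ι (D : Data r n q k) : 𝓞 D.K →+* ℂ := D.σ.comp (algebraMap (𝓞 D.K) D.K)

/-- The fibre `E_s` of the elliptic scheme at the point `s = (ξ_j : ζ_j)_j`. (For other homogeneous
coordinates `(λ_j ξ_j, λ_j ζ_j)` of `s` one gets an isomorphic curve, and `x(P)` is multiplied by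
`∏ λ_j ^ (2 ε_j)`.) -/
def Data.fibre (D : Data r n q k) (ξ ζ : Fin r → ℂ) : WeierstrassCurve.Affine ℂ :=
  curve (D.A.eval D.ι ξ ζ) (D.B.eval D.ι ξ ζ)

/-- A point of `ℰ^q × Y(1)^n × G_m^k` over the point `s = (ξ_j : ζ_j)_j`: the elliptic curve is `E_s`,
which is smooth, with `q` points `P_l`, `n` coordinates in `Y(1)^n` and `k` coordinates in `G_m^k`. -/
structure Pt (D : Data r n q k) where
  ξ : Fin r → ℂ
  ζ : Fin r → ℂ
  smooth : 4 * D.A.eval D.ι ξ ζ ^ 3 + 27 * D.B.eval D.ι ξ ζ ^ 2 ≠ 0
  P : Fin q → (D.fibre ξ ζ).Point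
  x : Fin n → ℂ
  u : Fin k → ℂ
  unit : ∀ w, u w ≠ 0

/-- The coordinates of the point in `Y(1)^(n+1)`: the `j`-invariant
`1728 · 4 A³ / (4 A³ + 27 B²)` of the elliptic curve, and `x_1, …, x_n`. -/
noncomputable def Pt.j {D : Data r n q k} (z : Pt D) : Fin (n + 1) → ℂ :=
  Fin.cons (6912 * D.A.eval D.ι z.ξ z.ζ ^ 3 /
    (4 * D.A.eval D.ι z.ξ z.ζ ^ 3 + 27 * D.B.eval D.ι z.ξ z.ζ ^ 2)) z.x

/-- The coordinates in `Y(1)^(n+1) × G_m^k`. -/
noncomputable def Pt.val {D : Data r n q k} (z : Pt D) : Fin (n + 1) ⊕ Fin k → ℂ :=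
  Sum.elim z.j z.u

/-- The point is in a special subvariety of codimension at least `ρ` of `ℰ^q × Y(1)^n × G_m^k`: its
image in `Y(1)^(n+1)` is in a special subvariety `Z` of dimension `a`, the points `P_l` are in an
algebraic subgroup of `E^q` of codimension `ρ₁`, the numbers `u_w` are in an algebraic subgroup of
`G_m^k` of codimension `ρ₂`, and `(n + 1 - a) + ρ₁ + ρ₂ ≥ ρ`. -/
def Pt.InSpecial {D : Data r n q k} (z : Pt D) (ρ : ℕ) : Prop :=
  ∃ (a : ℕ) (Z : SpecialVariety (n + 1) a) (ρ₁ ρ₂ : ℕ), ρ + a ≤ n + 1 + ρ₁ + ρ₂ ∧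
    z.j ∈ Z.locus ∧ InSubgroup z.P ρ₁ ∧ InSubtorus z.u ρ₂

/-- The point over `k` with homogeneous coordinates `(ξ_j : ζ_j)_j` satisfies the equations of `V`. -/
def Data.InBase (D : Data r n q k) {k' : Type} [Field k'] (π : 𝓞 D.K →+* k') (ξ ζ : Fin r → k') :
    Prop :=
  (∀ j, ξ j ≠ 0 ∨ ζ j ≠ 0) ∧ ∀ t, (D.H t).eval π ξ ζ = 0

/-- The point `P_l` is on the multisection with number `l`. -/
def Pt.OnMultisection {D : Data r n q k} (z : Pt D) (l : Fin q) : Prop :=
  (z.P l = 0 ∧ (D.F l 0).eval D.ι z.ξ z.ζ = 0) ∨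
    (z.P l ≠ 0 ∧ ∑ h : Fin (D.R l + 1), D.σ (D.μ l) ^ (h : ℕ) * (D.F l h).eval D.ι z.ξ z.ζ *
      xCoord (z.P l) ^ (D.R l - (h : ℕ)) = 0)

/-- The coordinate with number `i` in `Y(1)^(n+1) × G_m^k` is `c_i + ν_i N_i(s) / M_i(s)` (or
`N_i(s) = M_i(s) = 0`). -/
def Pt.OnGraph {D : Data r n q k} (z : Pt D) (i : Fin (n + 1) ⊕ Fin k) : Prop :=
  z.val i * (D.M i).eval D.ι z.ξ z.ζ =
    D.σ (D.c i) * (D.M i).eval D.ι z.ξ z.ζ + D.σ (D.ν i) * (D.N i).eval D.ι z.ξ z.ζ

/-- The point is in `X`. -/
def Pt.InX {D : Data r n q k} (z : Pt D) : Prop :=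
  D.InBase D.ι z.ξ z.ζ ∧ (∀ l, z.OnMultisection l) ∧ ∀ i, z.OnGraph i

/-- `X` has no atypical intersection. For all `ρ` the base point `s` of every point of `X` which is in
a special subvariety of codimension at least `ρ` has transcendence degree at most `m - ρ`, and every
irreducible closed subset of the image in the base of the set of these points has dimension at
most `m - ρ`. More precisely, let `W` be an irreducible closed subset of `ℂ^r` such that over all
points of `W` outside of some hypersurface `h = 0`, which does not contain `W`, there are points of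
`X` in special subvarieties of codimension at least `ρ`. Then `dim W + ρ ≤ m`. -/
def Data.NoAtypical (D : Data r n q k) (m : ℕ) : Prop :=
  (∀ (ρ : ℕ) (z : Pt D), z.InX → z.InSpecial ρ → ∀ W : Finset (Fin r),
    AlgebraicIndependent ℚ (fun i : W => z.ξ i / z.ζ i) → W.card + ρ ≤ m) ∧
  ∀ (ρ : ℕ) (W : Set (Fin r → ℂ)) (h : MvPolynomial (Fin r) ℂ),
    (∀ s ∈ W, MvPolynomial.eval s h ≠ 0 →
      ∃ z : Pt D, z.ξ = s ∧ z.ζ = 1 ∧ z.InX ∧ z.InSpecial ρ) →
    Pool.Agent.W282.ZP.zcl W ⊆ W → (Pool.Agent.W282.ZP.idealOf W).IsPrime →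
    h ∉ Pool.Agent.W282.ZP.idealOf W →
    Pool.Agent.W282.ZP.zdim W + (ρ : Cardinal) ≤ (m : Cardinal)

/-- The critical forms at the index `i` are zero at the point: `F_{l,0}` or `F_{l,R_l}` for `i = l` in
`Fin q`, and `N_i` or `M_i` for the other indices. -/
def Data.Bad (D : Data r n q k) {k' : Type} [Field k'] (π : 𝓞 D.K →+* k') (ξ ζ : Fin r → k') :
    Fin q ⊕ (Fin (n + 1) ⊕ Fin k) → Prop :=
  Sum.elim (fun l => (D.F l 0).eval π ξ ζ = 0 ∨ (D.F l (Fin.last (D.R l))).eval π ξ ζ = 0)
    (fun i => (D.N i).eval π ξ ζ = 0 ∨ (D.M i).eval π ξ ζ = 0)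

/-- reduction modulo an ideal, followed by the inclusion into an extension -/
def reduction {R : Type} [CommRing R] (v : Ideal R) (k : Type) [Field k] [Algebra (R ⧸ v) k] :
    R →+* k :=
  (algebraMap (R ⧸ v) k).comp (Ideal.Quotient.mk v)

/-- The reduction modulo `v` is in general position: for each point `s̄ = (ξ_i : ζ_i)_i` of the
reduction of `V` over an extension field of `𝓞 K / v`, the number of the bad indices plus the number
of any family of algebraically independent coordinates of `s̄` is at most `m`. -/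
def Data.GeneralPosition (D : Data r n q k) (v : Ideal (𝓞 D.K)) (m : ℕ) : Prop :=
  ∀ (k' : Type) [Field k'] [Algebra (𝓞 D.K ⧸ v) k'] (ξ ζ : Fin r → k'),
    D.InBase (reduction v k') ξ ζ →
    ∀ W : Finset (Fin r), AlgebraicIndependent (𝓞 D.K ⧸ v) (fun i : W => ξ i / ζ i) →
      {i | D.Bad (reduction v k') ξ ζ i}.ncard + W.card ≤ m

/-- The absolute values of `c - a` and `μ` are different, and the larger one is `d`. So the numbers
`c + μ y`, `y` a unit, have the distance `d` from `a`. -/
def AtDistance {K : Type} [Field K] [NumberField K] (v : HeightOneSpectrum (𝓞 K)) (c μ a : K)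
    (d : WithZero (Multiplicative ℤ)) : Prop :=
  v.valuation K (c - a) ≠ v.valuation K μ ∧ max (v.valuation K (c - a)) (v.valuation K μ) = d

/-- The ordinary type: `c + μ y` has the distance `d < 1`, `d ^ ((p - 1) p ^ r) ≠ |p|` for all `r`,
from the CM point `a = j(τ)`, ordinary at the odd prime number `p` under `v` and not congruent to `0` or
`1728`. -/
structure OrdinaryDisc {K : Type} [Field K] [NumberField K] (σ : K →+* ℂ)
    (v : HeightOneSpectrum (𝓞 K)) (p : ℕ) (τ : ℍ) (c μ : K) : Prop where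
  odd : p ≠ 2
  cm : IsCM τ
  ordinary : OrdinaryAt p τ
  near : ∃ (a : K) (d : WithZero (Multiplicative ℤ)), jj τ = σ a ∧ v.valuation K a = 1 ∧
    v.valuation K (a - 1728) = 1 ∧ AtDistance v c μ a d ∧ d < 1 ∧
    ∀ r : ℕ, d ^ ((p - 1) * p ^ r) ≠ v.valuation K p

/-- The place `v` above `p`, with ramification index `e`, and the local types of the points and the
coordinates. -/
structure Data.LocalTypes (D : Data r n q k) (v : HeightOneSpectrum (𝓞 D.K)) where
  p : ℕ
  prime : p.Prime
  mem : (p : 𝓞 D.K) ∈ v.asIdeal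
  e : ℕ
  ram : v.valuation D.K (p : D.K) = WithZero.exp (-(e : ℤ))
  -- the points of the elliptic curve: levels `f_l`
  f : Fin q → ℕ
  scale : ∀ l, v.valuation D.K (D.μ l) = WithZero.exp (f l : ℤ)
  level : ∀ l, e < 2 * f l
  level_ne : ∀ l l', l ≠ l' → ¬ f l ≡ f l' [MOD e]
  -- the modular coordinates: at most one cuspidal coordinate, the others are ordinary
  C : Finset (Fin (n + 1))
  card_C : C.card ≤ 1
  h : Fin (n + 1) → ℕ
  cuspidal : ∀ i ∈ C, 0 < h i ∧
    AtDistance v (D.c (Sum.inl i)) (D.ν (Sum.inl i)) 0 (WithZero.exp (h i : ℤ))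
  τ : Fin (n + 1) → ℍ
  ordinary : ∀ i, i ∉ C → OrdinaryDisc D.σ v p (τ i) (D.c (Sum.inl i)) (D.ν (Sum.inl i))
  not_isogenous : ∀ i j, i ∉ C → j ∉ C → i ≠ j → ¬ Isogenous (jj (τ i)) (jj (τ j))
  -- the torus coordinates: at most one polar coordinate, the others are near to torsion points
  P : Finset (Fin k)
  card_P : P.card ≤ 1
  o : Fin k → ℤ
  o_ne : ∀ w ∈ P, o w ≠ 0
  polar : ∀ w ∈ P, AtDistance v (D.c (Sum.inr w)) (D.ν (Sum.inr w)) 0 (WithZero.exp (o w))
  ζ : Fin k → D.K
  dist : Fin k → WithZero (Multiplicative ℤ)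
  torsion : ∀ w, w ∉ P → AtDistance v (D.c (Sum.inr w)) (D.ν (Sum.inr w)) (ζ w) (dist w)
  root : ∀ w, w ∉ P → ∃ N : ℕ, 0 < N ∧ ζ w ^ N = 1
  small : ∀ w, w ∉ P → dist w ≠ 0 ∧ dist w ^ (p - 1) < v.valuation D.K p
  incongruent : ∀ w w', w ∉ P → w' ∉ P → w ≠ w' → ∀ s t : ℕ,
    dist w * v.valuation D.K p ^ s ≠ dist w' * v.valuation D.K p ^ t

theorem xCoord_eq {a b : ℂ} (P : (curve a b).Point) :
    xCoord P = Pool.Agent.W466.EP.xx (A := a) (B := b) P := by
  rcases P with _ | ⟨x, y, h⟩
  · rfl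
  · rfl

/-- the ring of endomorphisms as in the helper files -/
def toE {a b : ℂ} (E : EndRing a b) : Pool.Agent.TH971.RF.EndRing a b where
  O := E.O
  act := E.act
  quad := E.quad
  rat := by
    intro c hc
    obtain ⟨u, w, h1, h2, h3, h4⟩ := E.rat c hc
    refine ⟨u, w, h1, h2, h3, fun P hP hw => ?_⟩
    have e1 : xCoord (a := a) (b := b) P = Pool.Agent.W466.EP.xx (A := a) (B := b) P := xCoord_eq P
    have hw' : w.eval (xCoord (a := a) (b := b) P) ≠ 0 := by rw [e1]; exact hw
    have h5 := h4 P hP hw'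
    have e2 : xCoord (a := a) (b := b) (E.act c P) =
      Pool.Agent.W466.EP.xx (A := a) (B := b) (E.act c P) := xCoord_eq _
    rw [e1, e2] at h5
    exact h5

theorem comb_add {a b : ℂ} (E : EndRing a b) {q : ℕ} (c c' : Fin q → E.O)
    (P : Fin q → (curve a b).Point) : E.comb (c + c') P = E.comb c P + E.comb c' P := by
  unfold EndRing.comb
  rw [← Finset.sum_add_distrib]
  refine Finset.sum_congr rfl fun l _ => ?_
  rw [Pi.add_apply, map_add]
  rfl

theorem comb_smul {a b : ℂ} (E : EndRing a b) {q : ℕ} (x : E.O) (c : Fin q → E.O)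
    (P : Fin q → (curve a b).Point) : E.comb (x • c) P = E.act x (E.comb c P) := by
  simp [EndRing.comb, map_sum]

/-- the module of the relations -/
def relMod {a b : ℂ} (E : EndRing a b) {q : ℕ} (P : Fin q → (curve a b).Point) :
    Submodule E.O (Fin q → E.O) where
  carrier := {c | E.Relation c P}
  zero_mem' := ⟨1, one_pos, by simp [EndRing.comb]⟩
  add_mem' := by
    rintro c c' ⟨t, ht, h⟩ ⟨t', ht', h'⟩
    refine ⟨t * t', Nat.mul_pos ht ht', ?_⟩
    rw [comb_add, nsmul_add, mul_nsmul, h, mul_comm t t', mul_nsmul, h', nsmul_zero, nsmul_zero,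
      add_zero]
  smul_mem' := by
    rintro x c ⟨t, ht, h⟩
    refine ⟨t, ht, ?_⟩
    rw [comb_smul, ← map_nsmul, h, map_zero]

theorem le_finrank {a b : ℂ} (E : EndRing a b) {q ρ : ℕ} (P : Fin q → (curve a b).Point)
    (c : Fin ρ → Fin q → E.O) (hc : LinearIndependent ℂ (fun i l => (c i l : ℂ)))
    (h : ∀ i, E.Relation (c i) P) : ρ ≤ Module.finrank E.O (relMod E P) := by
  have h1 : LinearIndependent E.O (fun i => (⟨c i, h i⟩ : relMod E P)) := by
    rw [Fintype.linearIndependent_iff] at hc ⊢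
    intro g hg i
    have h2 : ∑ i, (g i : ℂ) • (fun l => (c i l : ℂ)) = 0 := by
      funext l
      have h3 := congrArg (fun v : relMod E P => (((v : Fin q → E.O) l : E.O) : ℂ)) hg
      simpa [Finset.sum_apply] using h3
    exact_mod_cast hc _ h2 i
  have h2 := h1.cardinal_le_rank
  have h3 : Module.rank E.O (relMod E P) < Cardinal.aleph0 := by
    refine (Submodule.rank_le _).trans_lt ?_
    rw [rank_fun']
    exact Cardinal.natCast_lt_aleph0
  have h4 := Cardinal.toNat_le_toNat h2 h3
  simpa [Module.finrank] using h4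

/-- relations supported outside a small set -/
theorem exists_relation {O : Type} [CommRing O] [Nontrivial O] {k : ℕ}
    (M : Submodule O (Fin k → O)) (B : Finset (Fin k))
    (h : B.card < Module.finrank O M) : ∃ a ∈ M, a ≠ 0 ∧ ∀ j ∈ B, a j = 0 := by
  classical
  by_contra hcon
  push Not at hcon
  let f : M →ₗ[O] (B → O) :=
    (LinearMap.funLeft O O (fun j : B => (j : Fin k))).comp M.subtype
  have hf : Function.Injective f := by
    rw [injective_iff_map_eq_zero]
    intro a ha
    by_contra hne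
    obtain ⟨j, hj, hj'⟩ := hcon a a.2 (fun h => hne (Subtype.ext h))
    exact hj' (congrFun ha ⟨j, hj⟩)
  have h1 := LinearMap.finrank_le_finrank_of_injective hf
  rw [Module.finrank_pi, Fintype.card_coe] at h1
  omega

/-- a relation is a relation with a point of the division hull -/
theorem hull_point {k s : ℕ} (γ : Fin s → ℂ) (a : Fin k → ℤ) (ha : a ≠ 0)
    (c : Fin s → ℤ) :
    ∃ η : Fin k → ℂ, (∀ j, ∃ N : ℕ, 0 < N ∧ ∃ c' : Fin s → ℤ, η j ^ N = ∏ i, γ i ^ c' i) ∧
      ∏ j, η j ^ a j = ∏ i, γ i ^ c i := by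
  classical
  obtain ⟨j₀, hj₀⟩ : ∃ j, a j ≠ 0 := by
    by_contra h
    push Not at h
    exact ha (funext h)
  have hpos : 0 < (a j₀).natAbs := Int.natAbs_pos.2 hj₀
  obtain ⟨z, hz⟩ := IsAlgClosed.exists_pow_nat_eq
    (∏ i, γ i ^ (c i * (a j₀).sign)) hpos
  refine ⟨fun j => if j = j₀ then z else 1, ?_, ?_⟩
  · intro j
    by_cases hj : j = j₀
    · refine ⟨(a j₀).natAbs, hpos, fun i => c i * (a j₀).sign, ?_⟩
      simp only [hj, if_true]
      exact hz
    · refine ⟨1, one_pos, 0, ?_⟩
      simp [hj]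
  · have h1 : ∏ j, (if j = j₀ then z else 1) ^ a j = z ^ a j₀ := by
      rw [Finset.prod_eq_single j₀]
      · rw [if_pos rfl]
      · intro j _ hj
        rw [if_neg hj, one_zpow]
      · intro h
        exact absurd (Finset.mem_univ j₀) h
    have h2 : a j₀ = ((a j₀).natAbs : ℤ) * (a j₀).sign := by
      rw [mul_comm]
      exact (Int.sign_mul_natAbs (a j₀)).symm
    have h3 : (a j₀).sign * (a j₀).sign = 1 := by
      rcases Int.lt_trichotomy (a j₀) 0 with h | h | h
      · rw [Int.sign_eq_neg_one_of_neg h]; norm_num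
      · exact absurd h hj₀
      · rw [Int.sign_eq_one_of_pos h]; norm_num
    show ∏ j, (if j = j₀ then z else 1) ^ a j = _
    rw [h1]
    conv_lhs => rw [h2]
    rw [zpow_mul, zpow_natCast, hz, ← Finset.prod_zpow]
    refine Finset.prod_congr rfl fun i _ => ?_
    rw [← zpow_mul, mul_assoc, h3, mul_one]

/-- the group of the multiplicative relations -/
def relTor {k : ℕ} (u : Fin k → ℂ) (hu : ∀ w, u w ≠ 0) : Submodule ℤ (Fin k → ℤ) where
  carrier := {a | ∃ t : ℕ, 0 < t ∧ (∏ w, u w ^ a w) ^ t = 1}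
  zero_mem' := ⟨1, one_pos, by simp⟩
  add_mem' := by
    rintro a a' ⟨t, ht, h⟩ ⟨t', ht', h'⟩
    refine ⟨t * t', Nat.mul_pos ht ht', ?_⟩
    have e1 : ∏ w, u w ^ (a + a') w = (∏ w, u w ^ a w) * ∏ w, u w ^ a' w := by
      rw [← Finset.prod_mul_distrib]
      exact Finset.prod_congr rfl fun w _ => zpow_add₀ (hu w) _ _
    rw [e1, mul_pow, pow_mul, h, mul_comm t t', pow_mul, h', one_pow, one_pow, one_mul]
  smul_mem' := by
    rintro z a ⟨t, ht, h⟩
    refine ⟨t, ht, ?_⟩
    have e1 : ∏ w, u w ^ (z • a) w = (∏ w, u w ^ a w) ^ z := by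
      rw [← Finset.prod_zpow]
      refine Finset.prod_congr rfl fun w _ => ?_
      rw [Pi.smul_apply, smul_eq_mul, mul_comm, zpow_mul]
    rw [e1, ← zpow_natCast, ← zpow_mul, mul_comm z, zpow_mul, zpow_natCast, h, one_zpow]

theorem le_finrank_tor {k ρ : ℕ} (u : Fin k → ℂ) (hu : ∀ w, u w ≠ 0) (a : Fin ρ → Fin k → ℤ)
    (ha : LinearIndependent ℤ a) (h : ∀ i, ∃ t : ℕ, 0 < t ∧ (∏ w, u w ^ a i w) ^ t = 1) :
    ρ ≤ Module.finrank ℤ (relTor u hu) := by
  have h1 : LinearIndependent ℤ (fun i => (⟨a i, h i⟩ : relTor u hu)) :=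
    LinearIndependent.of_comp (relTor u hu).subtype ha
  have h2 := h1.fintype_card_le_finrank
  rwa [Fintype.card_fin] at h2

/-- one polar coordinate -/
theorem polar_zero {k : ℕ} {P : Finset (Fin k)} {o : Fin k → ℤ} (hP : P.card ≤ 1)
    (ho : ∀ j ∈ P, o j ≠ 0) {a : Fin k → ℤ} (h : ∑ j ∈ P, a j * o j = 0) : ∀ j ∈ P, a j = 0 := by
  intro j hj
  have h1 : P = {j} := by
    refine Finset.eq_singleton_iff_unique_mem.2 ⟨hj, fun i hi => ?_⟩
    exact Finset.card_le_one.1 hP i hi j hj
  rw [h1, Finset.sum_singleton] at h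
  exact (mul_eq_zero.1 h).resolve_right (ho j hj)

/-- the form as in the helper files -/
def toForm {R : Type} {deg : Fin r → ℕ} (F : MultiForm R r deg) :
    Pool.Agent.U854.SA.Form R (Fin r) := ⟨deg, F.coeff⟩

theorem eval_scale {R k : Type} [CommRing R] [CommRing k] {deg : Fin r → ℕ}
    (F : MultiForm R r deg) (π : R →+* k) (l a b : Fin r → k) :
    F.eval π (fun i => l i * a i) (fun i => l i * b i) = F.eval π a b * ∏ i, l i ^ deg i :=
  Pool.Agent.U854.SA.Form.eval_scale (toForm F) π l a b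

theorem map_eval {R k k' : Type} [CommRing R] [CommRing k] [CommRing k'] {deg : Fin r → ℕ}
    (F : MultiForm R r deg) (π : R →+* k) (f : k →+* k') (ξ ζ : Fin r → k) :
    f (F.eval π ξ ζ) = F.eval (f.comp π) (fun i => f (ξ i)) (fun i => f (ζ i)) :=
  Pool.Agent.U854.SA.Form.map_eval (toForm F) π f ξ ζ

/-- a root of a polynomial with integral coefficients whose first and last coefficients are units is
a unit -/
theorem root_unit (V : ValuationSubring ℂ) (R : ℕ) (F : Fin (R + 1) → ℂ)
    (hF : ∀ h, V.valuation (F h) ≤ 1) (h0 : V.valuation (F 0) = 1)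
    (h1 : V.valuation (F (Fin.last R)) = 1) {x : ℂ}
    (hx : ∑ h : Fin (R + 1), F h * x ^ (R - (h : ℕ)) = 0) : V.valuation x = 1 := by
  classical
  by_contra hne
  rcases lt_or_gt_of_ne hne with hlt | hgt
  · have h2 : V.valuation (∑ h ∈ Finset.univ.erase (Fin.last R), F h * x ^ (R - (h : ℕ))) < 1 := by
      refine Valuation.map_sum_lt _ one_ne_zero ?_
      intro h hh
      have h3 : (h : ℕ) < R := by
        have h4 := (Finset.mem_erase.1 hh).1
        have h5 := h.2
        have h6 : (h : ℕ) ≠ R := fun h7 => h4 (Fin.ext h7)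
        omega
      rw [map_mul, map_pow]
      exact (mul_le_of_le_one_left' (hF h)).trans_lt (pow_lt_one₀ zero_le hlt (by omega))
    have h3 : F (Fin.last R) * x ^ (R - ((Fin.last R : Fin (R + 1)) : ℕ)) = F (Fin.last R) := by
      rw [Fin.val_last, Nat.sub_self, pow_zero, mul_one]
    have h4 := hx
    rw [← Finset.add_sum_erase _ _ (Finset.mem_univ (Fin.last R)), h3] at h4
    have h5 : F (Fin.last R) = -∑ h ∈ Finset.univ.erase (Fin.last R), F h * x ^ (R - (h : ℕ)) :=
      eq_neg_of_add_eq_zero_left h4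
    rw [h5, Valuation.map_neg] at h1
    exact absurd h2 (by rw [h1]; exact lt_irrefl _)
  · have hv0 : V.valuation x ≠ 0 := (zero_lt_one.trans hgt).ne'
    have h2 : V.valuation (∑ h ∈ Finset.univ.erase (0 : Fin (R + 1)), F h * x ^ (R - (h : ℕ))) <
        V.valuation x ^ R := by
      refine Valuation.map_sum_lt _ (pow_ne_zero _ hv0) ?_
      intro h hh
      have h3 : 0 < (h : ℕ) := by
        have h4 := (Finset.mem_erase.1 hh).1
        exact Nat.pos_of_ne_zero fun h7 => h4 (Fin.ext h7)
      have h5 := h.2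
      rw [map_mul, map_pow]
      exact (mul_le_of_le_one_left' (hF h)).trans_lt (pow_lt_pow_right₀ hgt (by omega))
    have h4 := hx
    rw [← Finset.add_sum_erase _ _ (Finset.mem_univ (0 : Fin (R + 1)))] at h4
    have h5 := eq_neg_of_add_eq_zero_left h4
    have h6 := congrArg V.valuation h5
    rw [Valuation.map_neg, map_mul, h0, one_mul, map_pow, Fin.val_zero, Nat.sub_zero] at h6
    rw [← h6] at h2
    exact lt_irrefl _ h2

theorem scale_term {F L z x μ : ℂ} (hμ : μ ≠ 0) {R h : ℕ} (hh : h ≤ R) :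
    F * (L * z ^ (2 * h)) * (z ^ 2 * x / μ) ^ (R - h) =
      L * z ^ (2 * R) / μ ^ R * (μ ^ h * F * x ^ (R - h)) := by
  obtain ⟨n, rfl⟩ := Nat.exists_eq_add_of_le hh
  rw [Nat.add_sub_cancel_left, div_pow, mul_pow, ← pow_mul]
  field_simp
  ring


theorem main_pt (D : Data r n q k) {m : ℕ} (v : HeightOneSpectrum (𝓞 D.K)) (S : D.LocalTypes v)
    (hgen : D.GeneralPosition v.asIdeal m) {ρ : ℕ} (z : Pt D) (hX : z.InX) (hz : z.InSpecial ρ)
    (W : Finset (Fin r)) (hW : AlgebraicIndependent ℚ (fun i : W => z.ξ i / z.ζ i)) :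
    W.card + ρ ≤ m := by
  classical
  obtain ⟨⟨hξζ, hH⟩, hP, hG⟩ := hX
  obtain ⟨V, hA1, hA2, hrat, π, k', hk, hkA, res, l, ξ', ζ', hπ, hresπ, hres, hl, hξ', hζ', hne,
    hind⟩ := Pool.Agent.U854.SA.place_res D.σ v S.prime S.mem hξζ W hW
  have hpV : V.valuation (S.p : ℂ) < 1 := by
    have := (hA2 (S.p : 𝓞 D.K)).2 S.mem
    simpa using this
  have hpK : (S.p : D.K) ≠ 0 := by exact_mod_cast S.prime.ne_zero
  have hpC : (S.p : ℂ) ≠ 0 := by exact_mod_cast S.prime.ne_zero
  have hpV0 : V.valuation (S.p : ℂ) ≠ 0 := (Valuation.ne_zero_iff _).2 hpC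
  have hpnon : (S.p : ℂ) ∈ V.nonunits := (V.mem_nonunits_iff).2 hpV
  have harch := hrat.arch hpV hpV0
  obtain ⟨ϖ, hϖ⟩ := v.valuation_exists_uniformizer D.K
  have hϖ0 : ϖ ≠ 0 := by
    rintro rfl
    rw [map_zero] at hϖ
    exact absurd hϖ.symm WithZero.coe_ne_zero
  have hϖlt : v.valuation D.K ϖ < 1 := by
    rw [hϖ, ← WithZero.exp_zero]
    exact WithZero.exp_lt_exp.2 (by norm_num)
  have hg1 : V.valuation (D.σ ϖ) < 1 := Pool.Agent.N135.ZO.val_lt_of hA1 hA2 hϖlt
  have hg0 : D.σ ϖ ≠ 0 := (map_ne_zero D.σ).2 hϖ0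
  have hgv : V.valuation (D.σ ϖ) ≠ 0 := (Valuation.ne_zero_iff _).2 hg0
  -- values of elements of `K`
  have hKval : ∀ (x : D.K) (t : ℤ), v.valuation D.K x = WithZero.exp t →
      V.valuation (D.σ x) * V.valuation (D.σ ϖ) ^ t = 1 := by
    intro x t hx
    have h3 : v.valuation D.K (x * ϖ ^ t) = 1 := by
      rw [map_mul, map_zpow₀, hx, hϖ, ← WithZero.exp_zsmul, ← WithZero.exp_add]
      simp
    have h4 := Pool.Agent.N135.ZO.val_one_of hA1 hA2 h3
    rwa [map_mul, map_mul, map_zpow₀, map_zpow₀] at h4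
  have hR : V.valuation (S.p : ℂ) = V.valuation (D.σ ϖ) ^ S.e := by
    have h1 := hKval _ _ S.ram
    rw [map_natCast, zpow_neg, zpow_natCast] at h1
    exact (mul_inv_eq_one₀ (pow_ne_zero _ hgv)).1 h1
  have he0 : 0 < S.e := by
    rcases Nat.eq_zero_or_pos S.e with h | h
    · rw [h, pow_zero] at hR
      rw [hR] at hpV
      exact absurd hpV (lt_irrefl _)
    · exact h
  -- the values of the forms at the normalized coordinates
  have hVal : ∀ {deg : Fin r → ℕ} (F : MultiForm (𝓞 D.K) r deg),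
      ((F.eval π ξ' ζ' : V) : ℂ) = F.eval D.ι z.ξ z.ζ * ∏ i, l i ^ deg i := by
    intro deg F
    have h3 := map_eval F π V.subtype ξ' ζ'
    have h5 : (fun i => V.subtype (ξ' i)) = fun i => l i * z.ξ i := funext hξ'
    have h6 : (fun i => V.subtype (ζ' i)) = fun i => l i * z.ζ i := funext hζ'
    rw [hπ, h5, h6, eval_scale] at h3
    exact h3
  have hRes : ∀ {deg : Fin r → ℕ} (F : MultiForm (𝓞 D.K) r deg),
      res (F.eval π ξ' ζ') = F.eval (reduction v.asIdeal k')
        (fun i => res (ξ' i)) (fun i => res (ζ' i)) := by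
    intro deg F
    rw [reduction, hresπ]
    exact map_eval F π res ξ' ζ'
  have hHres : ∀ t, (D.H t).eval (reduction v.asIdeal k')
      (fun i => res (ξ' i)) (fun i => res (ζ' i)) = 0 := by
    intro t
    rw [← hRes]
    have h2 : (D.H t).eval π ξ' ζ' = 0 := by
      apply Subtype.ext
      rw [hVal, hH t, zero_mul]
      rfl
    rw [h2, map_zero]
  have hcount := hgen k' (fun i => res (ξ' i)) (fun i => res (ζ' i)) ⟨hne, hHres⟩ W hind
  have hunit : ∀ x : V, res x ≠ 0 → V.valuation (x : ℂ) = 1 := by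
    intro x hx
    refine le_antisymm ((V.valuation_le_one_iff _).2 x.2) (not_lt.1 fun h => ?_)
    exact hx ((hres x).2 h)
  -- the bad points of the elliptic curve
  let Be : Finset (Fin q) := Finset.univ.filter fun j =>
    res ((D.F j 0).eval π ξ' ζ') = 0 ∨ res ((D.F j (Fin.last (D.R j))).eval π ξ' ζ') = 0
  -- the modular and torus coordinates
  let y : Fin (n + 1) ⊕ Fin k → ℂ := fun i =>
    (D.N i).eval D.ι z.ξ z.ζ / (D.M i).eval D.ι z.ξ z.ζ
  have hygood : ∀ i, res ((D.N i).eval π ξ' ζ') ≠ 0 → res ((D.M i).eval π ξ' ζ') ≠ 0 →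
      V.valuation (y i) = 1 := by
    intro i h1 h2
    have e1 := hunit _ h1
    have e2 := hunit _ h2
    have hd : ∏ j, l j ^ D.D i j ≠ 0 :=
      Finset.prod_ne_zero_iff.2 fun j _ => pow_ne_zero _ (hl j)
    have h3 : y i = (((D.N i).eval π ξ' ζ' : V) : ℂ) / (((D.M i).eval π ξ' ζ' : V) : ℂ) := by
      rw [hVal, hVal]
      exact (mul_div_mul_right _ _ hd).symm
    rw [h3, map_div₀, e1, e2, div_one]
  have hval : ∀ i, V.valuation (y i) = 1 → z.val i = D.σ (D.c i) + D.σ (D.ν i) * y i := by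
    intro i hi
    have hM : (D.M i).eval D.ι z.ξ z.ζ ≠ 0 := by
      intro h
      have h1 : y i = 0 := by
        show _ / _ = (0 : ℂ)
        rw [h, div_zero]
      rw [h1, map_zero] at hi
      exact zero_ne_one hi
    have h1 := hG i
    have h2 : z.val i * (D.M i).eval D.ι z.ξ z.ζ = D.σ (D.c i) * (D.M i).eval D.ι z.ξ z.ζ +
      D.σ (D.ν i) * (D.N i).eval D.ι z.ξ z.ζ := h1
    show z.val i = D.σ (D.c i) + D.σ (D.ν i) * (_ / _)
    field_simp
    linear_combination h2
  let Bm : Finset (Fin (n + 1)) :=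
    Finset.univ.filter fun i => ¬ V.valuation (y (Sum.inl i)) = 1
  let Bt : Finset (Fin k) := Finset.univ.filter fun w => ¬ V.valuation (y (Sum.inr w)) = 1
  have hBad : Be.card + (Bm.card + Bt.card) + W.card ≤ m := by
    refine le_trans (Nat.add_le_add_right ?_ _) hcount
    have h0 : Be.card + (Bm.card + Bt.card) = (Be.disjSum (Bm.disjSum Bt)).card := by
      rw [Finset.card_disjSum, Finset.card_disjSum]
    rw [h0, ← Set.ncard_coe_finset]
    refine Set.ncard_le_ncard ?_ (Set.toFinite _)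
    intro i hi
    rcases Finset.mem_disjSum.1 (Finset.mem_coe.1 hi) with ⟨j, hj, rfl⟩ | ⟨j, hj, rfl⟩
    · have h1 := (Finset.mem_filter.1 hj).2
      rw [hRes, hRes] at h1
      exact h1
    · have h2 : ¬ V.valuation (y j) = 1 := by
        rcases Finset.mem_disjSum.1 hj with ⟨i, hi', rfl⟩ | ⟨i, hi', rfl⟩
        · exact (Finset.mem_filter.1 hi').2
        · exact (Finset.mem_filter.1 hi').2
      show (D.N j).eval _ _ _ = 0 ∨ (D.M j).eval _ _ _ = 0
      rw [← hRes, ← hRes]
      by_contra hcon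
      push Not at hcon
      exact h2 (hygood j hcon.1 hcon.2)
  -- the scaling
  let z₀ : ℂ := ∏ i, l i ^ D.ε i
  have hz0 : z₀ ≠ 0 := Finset.prod_ne_zero_iff.2 fun i _ => pow_ne_zero _ (hl i)
  have hzpow : ∀ n : ℕ, ∏ i, l i ^ (n * D.ε i) = z₀ ^ n := by
    intro n
    rw [← Finset.prod_pow]
    refine Finset.prod_congr rfl fun i _ => ?_
    rw [← pow_mul, mul_comm n]
  have hAV : V.valuation (z₀ ^ 4 * D.A.eval D.ι z.ξ z.ζ) ≤ 1 := by
    have h1 := hVal D.A
    rw [hzpow] at h1
    rw [mul_comm, ← h1, V.valuation_le_one_iff]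
    exact (D.A.eval π ξ' ζ').2
  have hBV : V.valuation (z₀ ^ 6 * D.B.eval D.ι z.ξ z.ζ) ≤ 1 := by
    have h1 := hVal D.B
    rw [hzpow] at h1
    rw [mul_comm, ← h1, V.valuation_le_one_iff]
    exact (D.B.eval π ξ' ζ').2
  have hμ0 : ∀ j, D.σ (D.μ j) ≠ 0 := by
    intro j h
    have h1 := hKval _ _ (S.scale j)
    rw [h, map_zero, zero_mul] at h1
    exact zero_ne_one h1
  -- the good points are near to the origin
  have hgood : ∀ j, j ∉ Be → V.valuation (z₀ ^ 2 * xCoord (z.P j)) *
      V.valuation (D.σ ϖ) ^ S.f j = 1 := by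
    intro j hj
    have hj' : ¬ (res ((D.F j 0).eval π ξ' ζ') = 0 ∨
        res ((D.F j (Fin.last (D.R j))).eval π ξ' ζ') = 0) := fun h =>
      hj (Finset.mem_filter.2 ⟨Finset.mem_univ _, h⟩)
    push Not at hj'
    rcases hP j with ⟨-, h0⟩ | ⟨-, hsum⟩
    · exfalso
      have h1 := hunit _ hj'.1
      rw [hVal, h0, zero_mul, map_zero] at h1
      exact zero_ne_one h1
    · have hroot : ∑ h : Fin (D.R j + 1), (((D.F j h).eval π ξ' ζ' : V) : ℂ) *
          (z₀ ^ 2 * xCoord (z.P j) / D.σ (D.μ j)) ^ (D.R j - (h : ℕ)) = 0 := by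
        have h1 : ∀ h : Fin (D.R j + 1), (((D.F j h).eval π ξ' ζ' : V) : ℂ) *
            (z₀ ^ 2 * xCoord (z.P j) / D.σ (D.μ j)) ^ (D.R j - (h : ℕ)) =
            (∏ i, l i ^ D.d j i) * z₀ ^ (2 * D.R j) / D.σ (D.μ j) ^ D.R j *
            (D.σ (D.μ j) ^ (h : ℕ) * (D.F j h).eval D.ι z.ξ z.ζ *
              xCoord (z.P j) ^ (D.R j - (h : ℕ))) := by
          intro h
          have h2 : ∏ i, l i ^ (D.d j i + 2 * (h : ℕ) * D.ε i) =
              (∏ i, l i ^ D.d j i) * z₀ ^ (2 * (h : ℕ)) := by
            rw [← hzpow, ← Finset.prod_mul_distrib]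
            exact Finset.prod_congr rfl fun i _ => pow_add _ _ _
          rw [hVal, h2]
          exact scale_term (hμ0 j) (Nat.lt_succ_iff.1 h.2)
        rw [Finset.sum_congr rfl fun h _ => h1 h, ← Finset.mul_sum, hsum, mul_zero]
      have h1 := root_unit V (D.R j) (fun h => (((D.F j h).eval π ξ' ζ' : V) : ℂ))
        (fun h => (V.valuation_le_one_iff _).2 ((D.F j h).eval π ξ' ζ').2) (hunit _ hj'.1)
        (hunit _ hj'.2) hroot
      rw [map_div₀, div_eq_one_iff_eq ((Valuation.ne_zero_iff _).2 (hμ0 j))] at h1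
      rw [h1]
      have h2 := hKval _ _ (S.scale j)
      rwa [zpow_natCast] at h2
  obtain ⟨a, Z, ρ₁, ρ₂, hρ, hZ, hE, hT⟩ := hz
  -- the points of the elliptic curve
  have hρ₁ : ρ₁ ≤ Be.card := by
    obtain ⟨E, c, hc, hcP⟩ := hE
    by_contra hlt
    push Not at hlt
    have h2 := le_finrank E z.P c hc hcP
    obtain ⟨c', ⟨t, ht, hrel⟩, hc0, hcB⟩ := exists_relation (relMod E z.P) Be (hlt.trans_le h2)
    refine Pool.Agent.TH971.RF.rel_placeE S.prime hpnon harch hz0 hAV hBV (toE E) hR he0
      (zero_lt_iff.2 hgv) z.P (Finset.univ.filter fun j => j ∉ Be) S.f ?_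
      (fun i _ => S.level i) (fun i _ j _ => S.level_ne i j) c' hc0 ?_ ht hrel
    · intro j hj
      have h3 := hgood j (Finset.mem_filter.1 hj).2
      have h4 : xCoord (z.P j) = Pool.Agent.W466.EP.xx (A := D.A.eval D.ι z.ξ z.ζ)
        (B := D.B.eval D.ι z.ξ z.ζ) (z.P j) := xCoord_eq (z.P j)
      rw [h4] at h3
      have h5 := Pool.Agent.TH971.RF.xx_scl (A := D.A.eval D.ι z.ξ z.ζ)
        (B := D.B.eval D.ι z.ξ z.ζ) hz0 (z.P j)
      exact (congrArg (fun x => V.valuation x * V.valuation (D.σ ϖ) ^ S.f j) h5).trans h3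
    · intro j hj
      refine hcB j ?_
      by_contra h
      exact hj (Finset.mem_filter.2 ⟨Finset.mem_univ _, h⟩)
  -- distances from the origin
  have hzero : ∀ i, ∀ t : ℤ, AtDistance v (D.c i) (D.ν i) 0 (WithZero.exp t) →
      V.valuation (y i) = 1 → V.valuation (z.val i) * V.valuation (D.σ ϖ) ^ t = 1 := by
    rintro i t ⟨h1, h2⟩ hyi
    obtain ⟨δ, hδ0, hδ, hxδ⟩ := Pool.Agent.U854.OP.at_distance D.σ v hA1 hA2 h1 hyi
    rw [map_zero, sub_zero, ← hval i hyi] at hxδ
    rw [h2] at hδ
    rw [hxδ]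
    exact hKval δ t hδ
  -- the modular coordinates
  have hρm : n + 1 ≤ a + Bm.card := by
    let Z' : SpecialDatum (n + 1) a := ⟨Z.cls, Z.surj, Z.mat, Z.det_pos, Z.cm, Z.isCM⟩
    have hZ' : z.j ∈ Z'.locus := hZ
    have hpair := Pool.Agent.U854.OP.pair_val S.prime hpV S.C S.h S.τ
      (fun i hi => (S.ordinary i hi).odd) (fun i hi => (S.ordinary i hi).cm)
      (fun i hi => (S.ordinary i hi).ordinary)
      (fun i hi => by
        obtain ⟨a, d, h1, h2, -⟩ := (S.ordinary i hi).near
        rw [h1]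
        exact Pool.Agent.N135.ZO.val_one_of hA1 hA2 h2)
      (fun i hi => by
        obtain ⟨a, d, h1, -, h2, -⟩ := (S.ordinary i hi).near
        have e1 : D.σ a - 1728 = D.σ (a - 1728) := by
          rw [map_sub]
          congr 1
          exact (map_ofNat D.σ 1728).symm
        rw [h1, e1]
        exact Pool.Agent.N135.ZO.val_one_of hA1 hA2 h2)
      S.not_isogenous (fun i => V.valuation (y (Sum.inl i)) = 1)
      (x := z.j) (g := D.σ ϖ) hg1
      (fun i hi hU => by
        obtain ⟨h1, h2⟩ := S.cuspidal i hi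
        have h3 : V.valuation (z.j i) * V.valuation (D.σ ϖ) ^ (S.h i : ℤ) = 1 :=
          hzero (Sum.inl i) _ h2 hU
        rw [zpow_natCast] at h3
        refine ⟨h3, ?_⟩
        by_contra hle
        have : V.valuation (z.j i) * V.valuation (D.σ ϖ) ^ S.h i < 1 :=
          calc V.valuation (z.j i) * V.valuation (D.σ ϖ) ^ S.h i ≤
                1 * V.valuation (D.σ ϖ) ^ S.h i := mul_le_mul_left (not_lt.1 hle) _
            _ = V.valuation (D.σ ϖ) ^ S.h i := one_mul _
            _ < 1 := pow_lt_one' hg1 h1.ne'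
        rw [h3] at this
        exact lt_irrefl _ this)
      (fun i hi hU => by
        obtain ⟨a, d, h1, -, -, h2, h3, h4⟩ := (S.ordinary i hi).near
        obtain ⟨δ, hδ0, hδ, hxδ⟩ := Pool.Agent.U854.OP.at_distance D.σ v hA1 hA2 h2.1 hU
        rw [← hval (Sum.inl i) hU, ← h1] at hxδ
        change V.valuation (z.j i - jj (S.τ i)) = _ at hxδ
        rw [h2.2] at hδ
        refine ⟨?_, fun t => ?_, fun h => ?_⟩
        · rw [hxδ]
          exact Pool.Agent.N135.ZO.val_lt_of hA1 hA2 (by rw [hδ]; exact h3)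
        · rw [hxδ]
          have h5 := Pool.Agent.N135.ZO.val_ne hA1 hA2
            (x := δ ^ ((S.p - 1) * S.p ^ t)) (y := (S.p : D.K))
            (pow_ne_zero _ hδ0) hpK (by rw [map_pow, hδ]; exact h4 t)
          rw [map_pow, map_pow, map_natCast] at h5
          exact h5
        · rw [sub_eq_zero.2 h, map_zero] at hxδ
          exact (Valuation.ne_zero_iff _).2 ((map_ne_zero D.σ).2 hδ0) hxδ.symm)
      Z' hZ'
    let G : Finset (Fin (n + 1)) :=
      Finset.univ.filter fun i => V.valuation (y (Sum.inl i)) = 1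
    have hGB : G.card + Bm.card = n + 1 := by
      have := Finset.card_filter_add_card_filter_not (s := (Finset.univ : Finset (Fin (n + 1))))
        (fun i => V.valuation (y (Sum.inl i)) = 1)
      rw [Finset.card_univ, Fintype.card_fin] at this
      exact this
    have hinj : ∀ i ∈ G, ∀ j ∈ G, Z.cls i = Z.cls j → i = j := by
      intro i hi j hj hcls
      by_contra hij
      obtain ⟨h1, h2, -⟩ := (hpair i (Finset.mem_filter.1 hi).2).2 j (Finset.mem_filter.1 hj).2
        hij hcls
      exact hij (Finset.card_le_one.1 S.card_C i h1 j h2)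
    have hcard : G.card = (G.image Z.cls).card := by
      rw [Finset.card_image_of_injOn]
      intro i hi j hj hij
      exact hinj i hi j hj hij
    have hsub : G.image Z.cls ⊆ (Finset.univ : Finset (Fin a)).image some := by
      intro c hc
      obtain ⟨i, hi, rfl⟩ := Finset.mem_image.1 hc
      obtain ⟨k', hk⟩ := Option.ne_none_iff_exists'.1 (hpair i (Finset.mem_filter.1 hi).2).1
      have hk' : Z.cls i = some k' := hk
      rw [hk']
      exact Finset.mem_image_of_mem _ (Finset.mem_univ k')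
    have h3 : G.card ≤ a := by
      calc G.card = (G.image Z.cls).card := hcard
        _ ≤ _ := Finset.card_le_card hsub
        _ ≤ (Finset.univ : Finset (Fin a)).card := Finset.card_image_le
        _ = a := by simp
    omega
  -- the torus coordinates
  have hρ₂ : ρ₂ ≤ Bt.card := by
    obtain ⟨b, hb, hbu⟩ := hT
    by_contra hlt
    push Not at hlt
    have h2 := le_finrank_tor z.u z.unit b hb hbu
    obtain ⟨c', ⟨t, ht, hrel⟩, hc0, hcB⟩ := exists_relation (relTor z.u z.unit) Bt
      (hlt.trans_le h2)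
    obtain ⟨η, hη, hηc⟩ := hull_point (s := 0) (fun _ => 1) ((t : ℤ) • c')
      (smul_ne_zero (by exact_mod_cast ht.ne') hc0) (fun _ => 0)
    have hrel' : ∏ j, z.u j ^ ((t : ℤ) • c') j = ∏ j, η j ^ ((t : ℤ) • c') j := by
      have h0 : ∏ j, η j ^ ((t : ℤ) • c') j = 1 := hηc.trans (by simp)
      rw [h0, ← hrel, ← Finset.prod_pow]
      refine Finset.prod_congr rfl fun j _ => ?_
      rw [Pi.smul_apply, smul_eq_mul, mul_comm, zpow_mul, zpow_natCast]
    have hδex : ∀ w : Fin k, ∃ δ : D.K, w ∉ S.P → δ ≠ 0 ∧ v.valuation D.K δ = S.dist w ∧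
        (V.valuation (y (Sum.inr w)) = 1 →
          V.valuation (z.u w - D.σ (S.ζ w)) = V.valuation (D.σ δ)) := by
      intro w
      by_cases hw : w ∈ S.P
      · exact ⟨0, fun h => absurd hw h⟩
      have h2 := S.torsion w hw
      by_cases hU : V.valuation (y (Sum.inr w)) = 1
      · obtain ⟨δ, hδ0, hδ, hxδ⟩ := Pool.Agent.U854.OP.at_distance D.σ v hA1 hA2 h2.1 hU
        rw [← hval (Sum.inr w) hU] at hxδ
        rw [h2.2] at hδ
        exact ⟨δ, fun _ => ⟨hδ0, hδ, fun _ => hxδ⟩⟩
      · obtain ⟨δ, hδ0, hδ, -⟩ :=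
          Pool.Agent.U854.OP.at_distance D.σ v hA1 hA2 h2.1 (y := 1) (map_one _)
        rw [h2.2] at hδ
        exact ⟨δ, fun _ => ⟨hδ0, hδ, fun h => absurd h hU⟩⟩
    choose δ hδ using hδex
    have key := Pool.Agent.U854.OP.torus_val (s := 0) S.prime hpV S.P S.o
      (fun w => V.valuation (y (Sum.inr w)) = 1) hg0 hg1 (u := z.u)
      (fun w hw hU => hzero (Sum.inr w) _ (S.polar w hw) hU)
      (Sum.elim (fun w => D.σ (S.ζ w)) (fun _ => 1)) (Sum.elim (fun w => D.σ (δ w)) (fun _ => 1))
      (fun _ => 1) (fun i => i.elim0)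
      (by
        rintro - (w | i) hw
        · have hw' : w ∉ S.P := hw
          obtain ⟨h1, h2, -⟩ := hδ w hw'
          obtain ⟨N, hN, hNζ⟩ := S.root w hw'
          refine ⟨⟨N, hN, ?_⟩, (map_ne_zero D.σ).2 h1, ?_, ?_⟩
          · show D.σ (S.ζ w) ^ N = 1
            rw [← map_pow, hNζ, map_one]
          · have h3 := Pool.Agent.N135.ZO.val_pow_lt hA1 hA2 (x := δ w ^ (S.p - 1))
              (y := (S.p : D.K)) hpK (by
                rw [map_pow, h2]
                exact (S.small w hw').2)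
            rw [map_pow, map_pow, map_natCast] at h3
            exact h3
          · rintro (w' | i) hbb hne s t
            · have hbb' : w' ∉ S.P := hbb
              have hne' : w ≠ w' := fun h => hne (by rw [h])
              obtain ⟨h1', h2', -⟩ := hδ w' hbb'
              have h3 := Pool.Agent.N135.ZO.val_ne hA1 hA2 (x := δ w * (S.p : D.K) ^ s)
                (y := δ w' * (S.p : D.K) ^ t) (mul_ne_zero h1 (pow_ne_zero _ hpK))
                (mul_ne_zero h1' (pow_ne_zero _ hpK)) (by
                  rw [map_mul, map_mul, map_pow, map_pow, h2, h2']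
                  exact S.incongruent w w' hw' hbb' hne' s t)
              simp only [map_mul, map_pow, map_natCast] at h3
              exact h3
            · exact i.elim0
        · exact i.elim0)
      (fun w hw hU => (hδ w hw).2.2 hU)
      (fun _ i => i.elim0) hη hrel'
      (fun w hw => by
        show (t : ℤ) • c' w = 0
        rw [hcB w (Finset.mem_filter.2 ⟨Finset.mem_univ _, hw⟩), smul_zero])
    have h3 := key.2 (polar_zero S.card_P S.o_ne key.1)
    exact smul_ne_zero (by exact_mod_cast ht.ne') hc0 h3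
  omega

theorem main (D : Data r n q k) {m : ℕ} (v : HeightOneSpectrum (𝓞 D.K)) (S : D.LocalTypes v)
    (hgen : D.GeneralPosition v.asIdeal m) : D.NoAtypical m := by
  classical
  refine ⟨fun ρ z hX hz W hW => main_pt D v S hgen z hX hz W hW, ?_⟩
  intro ρ W h hWX hcl hprime hh
  obtain ⟨w, hwW, hhw, T, hT, hdim⟩ :=
    Pool.Agent.W282.LF.generic_dim_open ℚ W hprime hcl h hh
  obtain ⟨z, hξ, hζ, hX, hz⟩ := hWX w hwW hhw
  have hT' : AlgebraicIndependent ℚ (fun i : T => z.ξ i / z.ζ i) := by
    have e : (fun i : T => z.ξ i / z.ζ i) = fun i : T => w i := by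
      funext i
      rw [hξ, hζ, Pi.one_apply, div_one]
    rw [e]
    exact hT
  have h4 := main_pt D v S hgen z hX hz T hT'
  calc Pool.Agent.W282.ZP.zdim W + (ρ : Cardinal) ≤ (T.card : Cardinal) + (ρ : Cardinal) := by
        gcongr
    _ = ((T.card + ρ : ℕ) : Cardinal) := by push_cast; rfl
    _ ≤ (m : Cardinal) := by exact_mod_cast h4

theorem div_pow_mul {k : Type} [Field k] (a : k) {b : k} (hb : b ≠ 0) {m n : ℕ} (h : m ≤ n) :
    (a / b) ^ m * b ^ n = a ^ m * b ^ (n - m) := by
  obtain ⟨c, rfl⟩ := Nat.exists_eq_add_of_le h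
  rw [Nat.add_sub_cancel_left, div_pow, pow_add]
  field_simp

theorem form_alg {R k : Type} [CommRing R] (v : Ideal R) [Field k] [Algebra (R ⧸ v) k]
    {deg : Fin 1 → ℕ} (F : MultiForm R 1 deg) (hF : ∃ e, F.coeff e ∉ v) {ξ ζ : Fin 1 → k}
    (hζ : ζ 0 ≠ 0)
    (h0 : F.eval ((algebraMap (R ⧸ v) k).comp (Ideal.Quotient.mk v)) ξ ζ = 0) :
    IsAlgebraic (R ⧸ v) (ξ 0 / ζ 0) := by
  classical
  obtain ⟨e₀, he₀⟩ := hF
  let Q : Polynomial (R ⧸ v) := ∑ e : (i : Fin 1) → Fin (deg i + 1),
    Polynomial.C (Ideal.Quotient.mk v (F.coeff e)) * Polynomial.X ^ (e 0 : ℕ)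
  refine ⟨Q, ?_, ?_⟩
  · intro hQ
    have h1 : Q.coeff (e₀ 0 : ℕ) = Ideal.Quotient.mk v (F.coeff e₀) := by
      change (∑ e : (i : Fin 1) → Fin (deg i + 1),
        Polynomial.C (Ideal.Quotient.mk v (F.coeff e)) * Polynomial.X ^ (e 0 : ℕ)).coeff _ = _
      rw [Polynomial.finsetSum_coeff, Finset.sum_eq_single e₀]
      · rw [Polynomial.coeff_C_mul_X_pow, if_pos rfl]
      · intro e _ hne
        rw [Polynomial.coeff_C_mul_X_pow, if_neg]
        intro h
        apply hne
        funext i
        obtain rfl := Subsingleton.elim i 0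
        exact (Fin.ext h).symm
      · intro h
        exact absurd (Finset.mem_univ _) h
    rw [hQ, Polynomial.coeff_zero] at h1
    exact he₀ (Ideal.Quotient.eq_zero_iff_mem.1 h1.symm)
  · have h1 : Polynomial.aeval (ξ 0 / ζ 0) Q * ζ 0 ^ deg 0 =
        F.eval ((algebraMap (R ⧸ v) k).comp (Ideal.Quotient.mk v)) ξ ζ := by
      change Polynomial.aeval (ξ 0 / ζ 0) (∑ e : (i : Fin 1) → Fin (deg i + 1),
        Polynomial.C (Ideal.Quotient.mk v (F.coeff e)) * Polynomial.X ^ (e 0 : ℕ)) * _ = _
      rw [map_sum, Finset.sum_mul]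
      refine Finset.sum_congr rfl fun e _ => ?_
      rw [map_mul, Polynomial.aeval_C, map_pow, Polynomial.aeval_X, Fin.prod_univ_one,
        RingHom.comp_apply, mul_assoc]
      congr 1
      exact div_pow_mul (ξ 0) hζ (Nat.lt_succ_iff.1 (e 0).2)
    rw [h0] at h1
    exact (mul_eq_zero.1 h1).resolve_right (pow_ne_zero _ hζ)

/-- The critical forms `F_{l,0}`, `F_{l,R_l}`, `N_i`, `M_i` on the projective line are not zero modulo `v`,
and the ones which belong to different indices have no common zeros modulo `v`. -/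
def Data.LineCondition (D : Data 1 n q k) (v : Ideal (𝓞 D.K)) : Prop :=
  (∀ l, (D.F l 0).NonzeroMod v ∧ (D.F l (Fin.last (D.R l))).NonzeroMod v) ∧
  (∀ i, (D.N i).NonzeroMod v ∧ (D.M i).NonzeroMod v) ∧
  ∀ (k' : Type) [Field k'] [Algebra (𝓞 D.K ⧸ v) k'] (ξ ζ : Fin 1 → k'), (ξ 0 ≠ 0 ∨ ζ 0 ≠ 0) →
    ∀ i i', D.Bad (reduction v k') ξ ζ i → D.Bad (reduction v k') ξ ζ i' → i = i'

theorem line (D : Data 1 n q k) (v : Ideal (𝓞 D.K)) (h : D.LineCondition v) :
    D.GeneralPosition v 1 := by
  classical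
  intro k' _ _ ξ ζ hH W hW
  have _ : Nontrivial (𝓞 D.K ⧸ v) := (algebraMap (𝓞 D.K ⧸ v) k').domain_nontrivial
  have hS1 : {i | D.Bad (reduction v k') ξ ζ i}.ncard ≤ 1 := by
    rw [Set.ncard_le_one]
    intro l hl l' hl'
    exact h.2.2 k' ξ ζ (hH.1 0) l l' hl hl'
  have hWc : W.card ≤ 1 := by
    have := Finset.card_le_univ W
    simpa using this
  rcases Set.eq_empty_or_nonempty {i | D.Bad (reduction v k') ξ ζ i} with hemp | ⟨i, hi⟩
  · rw [hemp, Set.ncard_empty]
    omega
  have hW0 : W = ∅ := by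
    rw [Finset.eq_empty_iff_forall_notMem]
    intro j hj
    obtain rfl := Subsingleton.elim j 0
    apply hW.transcendental ⟨0, hj⟩
    show IsAlgebraic _ (ξ 0 / ζ 0)
    by_cases hζ : ζ 0 = 0
    · rw [hζ, div_zero]
      exact isAlgebraic_zero
    · rcases i with l | i
      · rcases hi with h0 | h0
        · exact form_alg v _ (h.1 l).1 hζ h0
        · exact form_alg v _ (h.1 l).2 hζ h0
      · rcases hi with h0 | h0
        · exact form_alg v _ (h.2.1 i).1 hζ h0
        · exact form_alg v _ (h.2.1 i).2 hζ h0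
  rw [hW0, Finset.card_empty]
  omega

/-- **Zilber-Pink for subvarieties of the mixed Shimura varieties `ℰ^q × Y(1)^n × G_m^k`** from their
behaviour at one place. -/
theorem result :
    (∀ (r n q k m : ℕ) (D : Data r n q k) (v : HeightOneSpectrum (𝓞 D.K)),
      Nonempty (D.LocalTypes v) → D.GeneralPosition v.asIdeal m → D.NoAtypical m) ∧
    -- rational curves
    ∀ (n q k : ℕ) (D : Data 1 n q k) (v : HeightOneSpectrum (𝓞 D.K)),
      Nonempty (D.LocalTypes v) → D.LineCondition v.asIdeal → D.NoAtypical 1 :=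
  ⟨fun _ _ _ _ _ D v h hgen => main D v h.some hgen, fun _ _ _ D v h hline =>
    main D v h.some (line D v.asIdeal hline)⟩

end Pool.Agent.Results.MP_a325a5_ag.OnePlace
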