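import Pool.Agent.N603.TH.Vhs
import Pool.Agent.U163.ZP.Elim2

/-!
# MP_a325a5_ag: Zilber-Pink for all systems of equations over parameter spaces of any dimension

The Shimura variety `Y(1)^n` is identified with `ℂ^n` by the elliptic modular function, and the special
subvarieties of the mixed Shimura variety `Y(1)^n × G_m^k` are the products of a special subvariety `Z`
of `Y(1)^n` and a torsion coset `C`.

**Setting.** Let `W ⊆ 𝔸^ν` be an irreducible affine variety over `ℚ` of dimension at most `r` (the
parameter space), given by its prime ideal `I`, and let `F_1, …, F_M` be polynomials over `ℤ` such that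
any `r + 1` of the functions `F_l` on `W` are multiplicatively independent modulo constants
(`MultIndependent`). We study sets `X` in `Y(1)^n × G_m^k` which are given by a finite system of
polynomials `∑_β c q β z^β` with the exponents `β ∈ supp q`, in `n` modular coordinates, `k` torus
coordinates and `N` auxiliary coordinates (`X` is the set of the points `x` for which there is a
`y ∈ ℂ^N` such that all polynomials of the system vanish at `(x, y)`, `solutions`). So `X` can be any
algebraic set over `ℚ`, or the image of one. The coefficients are of the form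
`c q β = F_l (t) ^ e l q β * g` for every `l`, where no prime `> b` divides both `g` and `F_l (t)`
(`HasOrders`); for example the members of families of systems with the coefficients
`a q β ∏_l F_l (t) ^ e l q β`, at all `t` at which the `F_l` have almost coprime values.

The type of a product `Z × C` is `(cls, d, L)`: the partition `cls` of the coordinates of `Y(1)^n` which
are not constant on `Z` into `dim Z` classes, the determinants `d_i > 0` of the matrices which define
`Z`, and the linear subspace `L` of `ℚ^k` given by the algebraic subgroup. The index `l` excludes the type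
if the tropicalization of the system with the orders `e l` of the coefficients (`TropAt`) contains no
point compatible with the type (`Compatible`, from the file `TropicalLocalCriterion`: constant
coordinates not negative, negative coordinates of one class proportional up to squares with the factors
`d_i d_j`, torus coordinates in `L`).

**Theorem.** Let `Γ` be a finite set of algebraic numbers. There is a function `H` on `W`, not
identically zero, which depends only on `Γ`, `b`, `r`, `W` and the `F_l`, such that the following holds for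
ALL `n`, `k`, `N`, `m` and ALL finite systems of exponents `supp q` with orders `e l q β` for which every
type of special subvarieties of dimension `dim Z + dim L < n + k - m` is excluded by at least `r + 1`
indices `l` (`Redundant`). If `t` is any integral point of `W` with `H (t) ≠ 0` and `c q β` are any
coefficients with these orders at `t` (`HasOrders`), then the set `X` defined by the system has no
atypical intersection (as a set of dimension `m`) with the products `Z × C`: every irreducible closed
subset of `X ∩ (Z × C)` has dimension at most `dim (Z × C) + m - (n + k)`. Here the constant coordinates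
of `Z` can be special points or any numbers integral over `ℤ[Γ]`, and `C` can be a torsion coset or a
coset by a point whose coordinates are units over `ℤ[Γ]`. So the parameters with atypical intersections are
on one proper closed subset of `W` for all the systems at once. If `W` is a cone and the `F_l` are forms,
then `H` can be taken to be a form.

In particular (second part) let `F_1, …, F_M` be nonconstant polynomials in `r` variables over `ℤ`,
pairwise coprime over `ℚ`. Then there is a polynomial `H ≠ 0` in `r` variables (a form, if the `F_l` are)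
such that for all `t ∈ ℤ^r` with `H (t) ≠ 0` at which no two of the `F_l` have values with a common prime
divisor `> b`, all the systems with the coefficients `c q β = a q β ∏_l F_l (t) ^ e l q β`, with nonzero
integers `a q β` whose prime divisors are at most `b`, and orders with the property `Redundant`, define sets
without atypical intersections. (If all types are excluded by some of `M₀` indices with orders
`e_1, …, e_{M₀}`, then `M = (r + 1) M₀` functions and every `e_i` used `r + 1` times satisfy `Redundant`.)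

The starting files and their extensions treat translates by random integers, the values of one parameter
outside of a finite set or a set of density zero, or residue classes; here the number of the parameters is
arbitrary, and the systems of equations are not fixed.

Proof. By the tropical criterion of the starting library it is sufficient that for every type one of the
indices which exclude it has a prime `p > max (D, b)` with `p ∣ F_l (t)`. Otherwise for `r + 1` indices the
values `F_l (t)` are `S`-units for a fixed finite set `S`. There is an algebraic relation between these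
`r + 1` functions on `W`; a relation with the smallest number of terms has at least two terms and no
vanishing subsum on `W`. Its value at `t` is a sum of `S`-units which is zero; hence a proper subsum
vanishes at `t`, or the ratio of two of the terms, which is not constant on `W` because of the
multiplicative independence, has one of finitely many values (unit equation, starting library).
-/

set_option autoImplicit false

namespace Pool.Agent.Results.MP_a325a5_ag.SeveralParameters

open MvPolynomial Pool.Agent.R424.TG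
open Pool.Agent.Y152.RP.FamM (NoAtypical)

/-- Any `r + 1` of the functions `F l` are multiplicatively independent modulo constants on the variety
of the prime ideal `I`. -/
def MultIndependent {ν M : ℕ} (I : Ideal (MvPolynomial (Fin ν) ℚ)) (r : ℕ)
    (F : Fin M → MvPolynomial (Fin ν) ℤ) : Prop :=
  ∀ s : Finset (Fin M), s.card = r + 1 → ∀ a a' : Fin M → ℕ, (∀ l, l ∉ s → a l = 0 ∧ a' l = 0) →
    a ≠ a' → ∀ α : ℚ, ∏ l, map (Int.castRingHom ℚ) (F l) ^ a l -
      C α * ∏ l, map (Int.castRingHom ℚ) (F l) ^ a' l ∉ I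

/-- Every type of special subvarieties of dimension less than `n + k - m` is excluded by at least
`r + 1` of the indices `l`: the tropicalization of the system with the orders `e l` of the
coefficients contains no point compatible with the type. -/
def Redundant {n k N M : ℕ} {κ : Type} (m r : ℕ)
    (supp : κ → Finset (((Fin n ⊕ Fin k) ⊕ Fin N) →₀ ℕ))
    (e : Fin M → κ → (((Fin n ⊕ Fin k) ⊕ Fin N) →₀ ℕ) → ℕ) : Prop :=
  ∀ (r' : ℕ) (cls : Fin n → Option (Fin r')) (d : Fin n → ℕ) (L : Submodule ℚ (Fin k → ℚ)),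
    (∀ i, 0 < d i) → r' + Module.finrank ℚ L + m < n + k →
      ∃ s : Finset (Fin M), s.card = r + 1 ∧
        ∀ l ∈ s, ∀ w, (∀ q, TropAt (supp q) (e l q) w) → ¬ Compatible cls d L w

/-- The coefficients `c q β` are of the form `f l ^ e l q β * g`, where no prime larger than `b` divides
both `g` and `f l`. -/
def HasOrders {n k N M : ℕ} {κ : Type} (b : ℕ) (f : Fin M → ℤ)
    (supp : κ → Finset (((Fin n ⊕ Fin k) ⊕ Fin N) →₀ ℕ))
    (e : Fin M → κ → (((Fin n ⊕ Fin k) ⊕ Fin N) →₀ ℕ) → ℕ)
    (c : κ → (((Fin n ⊕ Fin k) ⊕ Fin N) →₀ ℕ) → ℤ) : Prop :=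
  ∀ l q, ∀ β ∈ supp q, ∃ g : ℤ, c q β = f l ^ e l q β * g ∧
    ∀ p : ℕ, p.Prime → b < p → (p : ℤ) ∣ f l → ¬ (p : ℤ) ∣ g

/-- The local criterion with a choice of the prime for every type. -/
theorem local_types (Γ : Finset ℂ) (hΓ : ∀ γ ∈ Γ, IsAlgebraic ℚ γ) :
    ∃ D : ℕ, ∀ (K : Subfield ℂ) [Countable K], (∀ γ ∈ Γ, γ ∈ K) →
      ∀ (κ : Type) [Finite κ] (n k N m M : ℕ)
        (supp : κ → Finset (((Fin n ⊕ Fin k) ⊕ Fin N) →₀ ℕ))
        (e : Fin M → κ → (((Fin n ⊕ Fin k) ⊕ Fin N) →₀ ℕ) → ℕ)
        (c : κ → (((Fin n ⊕ Fin k) ⊕ Fin N) →₀ ℕ) → ℤ),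
      (∀ (r : ℕ) (cls : Fin n → Option (Fin r)) (d : Fin n → ℕ) (L : Submodule ℚ (Fin k → ℚ)),
        (∀ i, 0 < d i) → r + Module.finrank ℚ L + m < n + k →
        ∃ l, (∀ w, (∀ q, TropAt (supp q) (e l q) w) → ¬ Compatible cls d L w) ∧
          ∃ (f : ℤ) (p : ℕ), f ≠ 0 ∧ p.Prime ∧ D < p ∧ (p : ℤ) ∣ f ∧
            ∀ q, ∀ β ∈ supp q, ∃ g : ℤ, c q β = f ^ e l q β * g ∧ ¬ (p : ℤ) ∣ g) →
      NoAtypical (algebraMap (Algebra.adjoin ℤ (Γ : Set ℂ)) ℂ) K m
        (solutions supp (fun q β => ((c q β : ℤ) : ℂ)) : Set (Fin n ⊕ Fin k → ℂ)) := by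
  classical
  obtain ⟨D₀, hD₀, halg⟩ := Pool.Agent.W466.ZP.alg_mem (fun z : Γ => (z : ℂ)) fun z => hΓ z z.2
  refine ⟨D₀, fun K _ hΓK κ _ n k N m M supp e c hgood => ?_⟩
  have hK : ∀ a : Algebra.adjoin ℤ (Γ : Set ℂ),
      algebraMap (Algebra.adjoin ℤ (Γ : Set ℂ)) ℂ a ∈ K := by
    intro a
    have hle : Algebra.adjoin ℤ (Γ : Set ℂ) ≤ subalgebraOfSubring K.toSubring :=
      Algebra.adjoin_le fun γ hγ => hΓK γ hγ
    exact hle a.2
  refine coreB (algebraMap (Algebra.adjoin ℤ (Γ : Set ℂ)) ℂ) K hK _ _
    fun r cls d L hd hr => ?_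
  obtain ⟨l, hl, f, p, h0, hp, hpD, hpf, hc⟩ := hgood r cls d L hd hr
  refine ⟨e l, hl, fun ρ x hx => ?_⟩
  have hxQ : AlgebraicIndependent ℚ x := hx.restrictScalars (algebraMap ℚ K).injective
  obtain ⟨V, hV, hVx⟩ := Pool.Agent.R424.MP.place x hxQ hp
  have hp1 : V.valuation (p : ℂ) < 1 := by rwa [ValuationSubring.mem_nonunits_iff] at hV
  have hint : ∀ w : ℤ, V.valuation (w : ℂ) ≤ 1 := fun w => by
    rw [ValuationSubring.valuation_le_one_iff]
    exact intCast_mem V w
  refine ⟨V, V.valuation (f : ℂ), ?_, ?_, fun q β hβ => ?_, fun a => ?_, hVx⟩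
  · rw [Valuation.ne_zero_iff]
    exact_mod_cast h0
  · obtain ⟨w, hw⟩ := hpf
    rw [hw]
    push_cast
    rw [map_mul]
    exact (mul_le_of_le_one_right' (hint w)).trans_lt hp1
  · obtain ⟨g, hg1, hg2⟩ := hc q β hβ
    rw [hg1]
    push_cast
    rw [map_mul, map_pow, Pool.Agent.W466.ZP.int_unit V hp hV _ hg2, mul_one]
  · rw [ValuationSubring.valuation_le_one_iff]
    have hpD' : ¬ p ∣ D₀ := fun h1 => by
      have := Nat.le_of_dvd hD₀ h1
      omega
    have hle : Algebra.adjoin ℤ (Γ : Set ℂ) ≤ subalgebraOfSubring V.toSubring :=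
      Algebra.adjoin_le fun γ hγ => halg p hp hpD' V hV ⟨γ, hγ⟩
    exact hle a.2

/-- **Zilber-Pink for all systems of equations with coefficients of given orders over parameter spaces
of any dimension.** -/
theorem result (Γ : Finset ℂ) (hΓ : ∀ γ ∈ Γ, IsAlgebraic ℚ γ) (b r M : ℕ) :
    (∀ (ν : ℕ) (I : Ideal (MvPolynomial (Fin ν) ℚ)), I.IsPrime →
      Algebra.trdeg ℚ (MvPolynomial (Fin ν) ℚ ⧸ I) ≤ r →
      ∀ F : Fin M → MvPolynomial (Fin ν) ℤ, MultIndependent I r F →
      ∃ H : MvPolynomial (Fin ν) ℚ, H ∉ I ∧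
        ((∀ f ∈ I, ∀ j, homogeneousComponent j f ∈ I) → (∀ l, ∃ j, (F l).IsHomogeneous j) →
          ∃ j, H.IsHomogeneous j) ∧
        ∀ t : Fin ν → ℤ, (∀ f ∈ I, eval (fun i => (t i : ℚ)) f = 0) →
          eval (fun i => (t i : ℚ)) H ≠ 0 →
          ∀ (K : Subfield ℂ) [Countable K], (∀ γ ∈ Γ, γ ∈ K) →
          ∀ (κ : Type) [Finite κ] (n k N m : ℕ)
            (supp : κ → Finset (((Fin n ⊕ Fin k) ⊕ Fin N) →₀ ℕ))
            (e : Fin M → κ → (((Fin n ⊕ Fin k) ⊕ Fin N) →₀ ℕ) → ℕ), Redundant m r supp e →
          ∀ c : κ → (((Fin n ⊕ Fin k) ⊕ Fin N) →₀ ℕ) → ℤ,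
            HasOrders b (fun l => eval t (F l)) supp e c →
            NoAtypical (algebraMap (Algebra.adjoin ℤ (Γ : Set ℂ)) ℂ) K m
              (solutions supp (fun q β => ((c q β : ℤ) : ℂ)) : Set (Fin n ⊕ Fin k → ℂ))) ∧
    ∀ F : Fin M → MvPolynomial (Fin r) ℤ, (∀ l, 0 < (F l).totalDegree) →
      (∀ l l', l ≠ l' → IsRelPrime (map (Int.castRingHom ℚ) (F l)) (map (Int.castRingHom ℚ) (F l'))) →
      ∃ H : MvPolynomial (Fin r) ℚ, H ≠ 0 ∧
        ((∀ l, ∃ j, (F l).IsHomogeneous j) → ∃ j, H.IsHomogeneous j) ∧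
        ∀ t : Fin r → ℤ, (∀ l l', l ≠ l' → ∀ p : ℕ, p.Prime → (p : ℤ) ∣ eval t (F l) →
            (p : ℤ) ∣ eval t (F l') → p ≤ b) →
          eval (fun i => (t i : ℚ)) H ≠ 0 →
          ∀ (K : Subfield ℂ) [Countable K], (∀ γ ∈ Γ, γ ∈ K) →
          ∀ (κ : Type) [Finite κ] (n k N m : ℕ)
            (supp : κ → Finset (((Fin n ⊕ Fin k) ⊕ Fin N) →₀ ℕ))
            (e : Fin M → κ → (((Fin n ⊕ Fin k) ⊕ Fin N) →₀ ℕ) → ℕ), Redundant m r supp e →
          ∀ a : κ → (((Fin n ⊕ Fin k) ⊕ Fin N) →₀ ℕ) → ℤ,
            (∀ q, ∀ β ∈ supp q, ∀ p : ℕ, p.Prime → (p : ℤ) ∣ a q β → p ≤ b) →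
            NoAtypical (algebraMap (Algebra.adjoin ℤ (Γ : Set ℂ)) ℂ) K m
              (solutions supp (fun q β => (((a q β * ∏ l, eval t (F l) ^ e l q β : ℤ)) : ℂ)) :
                Set (Fin n ⊕ Fin k → ℂ)) := by
  classical
  obtain ⟨D, hD⟩ := local_types Γ hΓ
  have main : ∀ (ν : ℕ) (I : Ideal (MvPolynomial (Fin ν) ℚ)), I.IsPrime →
      Algebra.trdeg ℚ (MvPolynomial (Fin ν) ℚ ⧸ I) ≤ r →
      ∀ F : Fin M → MvPolynomial (Fin ν) ℤ, MultIndependent I r F →
      ∃ H : MvPolynomial (Fin ν) ℚ, H ∉ I ∧
        ((∀ f ∈ I, ∀ j, homogeneousComponent j f ∈ I) → (∀ l, ∃ j, (F l).IsHomogeneous j) →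
          ∃ j, H.IsHomogeneous j) ∧
        ∀ t : Fin ν → ℤ, (∀ f ∈ I, eval (fun i => (t i : ℚ)) f = 0) →
          eval (fun i => (t i : ℚ)) H ≠ 0 →
          ∀ (K : Subfield ℂ) [Countable K], (∀ γ ∈ Γ, γ ∈ K) →
          ∀ (κ : Type) [Finite κ] (n k N m : ℕ)
            (supp : κ → Finset (((Fin n ⊕ Fin k) ⊕ Fin N) →₀ ℕ))
            (e : Fin M → κ → (((Fin n ⊕ Fin k) ⊕ Fin N) →₀ ℕ) → ℕ), Redundant m r supp e →
          ∀ c : κ → (((Fin n ⊕ Fin k) ⊕ Fin N) →₀ ℕ) → ℤ,
            HasOrders b (fun l => eval t (F l)) supp e c →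
            NoAtypical (algebraMap (Algebra.adjoin ℤ (Γ : Set ℂ)) ℂ) K m
              (solutions supp (fun q β => ((c q β : ℤ) : ℂ)) : Set (Fin n ⊕ Fin k → ℂ)) := by
    intro ν I hI hr F hF
    by_cases hM : r + 1 ≤ M
    · obtain ⟨H, hH, hhom, hcore⟩ := Pool.Agent.U163.ZP.core2 I r hM hr F
        (fun s hs a a' h hne α => hF s hs a a' h hne α) (max D b)
      refine ⟨H, hH, hhom, fun t ht htH K _ hΓK κ _ n k N m supp e he c hc => ?_⟩
      obtain ⟨ht0, hbig⟩ := hcore t ht htH
      refine hD K hΓK κ n k N m M supp e c fun r' cls d L hd hr' => ?_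
      obtain ⟨s, hs, hex⟩ := he r' cls d L hd hr'
      obtain ⟨l, hl, p, hp, hpD, hpF⟩ := hbig s hs
      refine ⟨l, hex l hl, eval t (F l), p, ht0 l, hp, (le_max_left _ _).trans_lt hpD, hpF,
        fun q β hβ => ?_⟩
      obtain ⟨g, hg1, hg2⟩ := hc l q β hβ
      exact ⟨g, hg1, hg2 p hp ((le_max_right _ _).trans_lt hpD) hpF⟩
    · refine ⟨1, fun h => hI.ne_top ((Ideal.eq_top_iff_one _).2 h), fun _ _ =>
        ⟨0, isHomogeneous_one _ _⟩, fun t _ _ K _ hΓK κ _ n k N m supp e he c _ => ?_⟩
      refine hD K hΓK κ n k N m M supp e c fun r' cls d L hd hr' => ?_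
      obtain ⟨s, hs, -⟩ := he r' cls d L hd hr'
      have h1 := Finset.card_le_univ s
      rw [Fintype.card_fin, hs] at h1
      exact absurd h1 hM
  refine ⟨main, fun F hF1 hF2 => ?_⟩
  obtain ⟨H, hH, hhom, h⟩ := main r ⊥ Ideal.isPrime_bot (Pool.Agent.U163.ZP.trdeg_bot r) F (by
    intro s _ a a' _ hne α
    exact Pool.Agent.U163.ZP.not_mem_bot (fun l => Pool.Agent.U163.ZP.toQ_ne_zero (hF1 l))
      (fun l => Pool.Agent.U163.ZP.not_isUnit_toQ (hF1 l)) hF2 hne α)
  refine ⟨H, fun h0 => hH (Ideal.mem_bot.2 h0), fun h1 => hhom ?_ h1,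
    fun t ht htH K _ hΓK κ _ n k N m supp e he a ha => ?_⟩
  · intro f hf j
    rw [Ideal.mem_bot] at hf ⊢
    rw [hf, map_zero]
  · refine h t (fun f hf => ?_) htH K hΓK κ n k N m supp e he _ fun l q β hβ => ?_
    · rw [Ideal.mem_bot] at hf
      rw [hf, map_zero]
    · refine ⟨a q β * ∏ l' ∈ Finset.univ.erase l, eval t (F l') ^ e l' q β, ?_, ?_⟩
      · rw [← Finset.mul_prod_erase Finset.univ (fun l' => eval t (F l') ^ e l' q β)
          (Finset.mem_univ l)]
        ring
      · intro p hp hpb hpl hd
        have hpp := Nat.prime_iff_prime_int.1 hp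
        rcases hpp.dvd_or_dvd hd with h1 | h1
        · exact absurd (ha q β hβ p hp h1) (by omega)
        · obtain ⟨l', hl', h2⟩ := (hpp.dvd_finsetProd_iff _).1 h1
          exact absurd (ht l l' (Finset.ne_of_mem_erase hl').symm p hp hpl
            (hpp.dvd_of_dvd_pow h2)) (by omega)

end Pool.Agent.Results.MP_a325a5_ag.SeveralParameters
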